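import Mathlib

set_option autoImplicit false

/-!
Definitions for the question on `m`-adic stability of F-purity.
-/

namespace Pool.Agent.Work.MP_802276_ag

open TensorProduct

universe u

/-- `FStar p A` is the ring `A`, to be regarded as an `A`-module through the Frobenius map. -/
def FStar (_p : ℕ) (A : Type u) : Type u := A

section

variable (p : ℕ) (A : Type u) [CommRing A]

instance : CommRing (FStar p A) := inferInstanceAs (CommRing A)

/-- `FStar p A` is an `A`-algebra through the Frobenius map `a ↦ a ^ p`. -/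
noncomputable instance [Fact p.Prime] [CharP A p] : Algebra A (FStar p A) :=
  RingHom.toAlgebra (R := A) (S := FStar p A) (frobenius A p)

/-- A ring of characteristic `p` is F-pure if for every module `M` over it the map
`M → M ⊗ FStar p A`, `m ↦ m ⊗ 1`, is injective. -/
def FPure [Fact p.Prime] [CharP A p] : Prop :=
  ∀ (M : Type u) [AddCommGroup M] [Module A M],
    Function.Injective fun m : M => m ⊗ₜ[A] (1 : FStar p A)

end

open IsLocalRing in
/-- `C` is a canonical module of the Cohen-Macaulay local ring `A`: some sequence `rs` generating an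
ideal primary to the maximal ideal is regular on `A` (so that `A` is Cohen-Macaulay) and on `C` (so
that `C` is a maximal Cohen-Macaulay module), `C` is finitely generated and faithful, and of type
one: the socle of `C / (rs) C` is one-dimensional. -/
def IsCanonical (A : Type u) [CommRing A] [IsLocalRing A] (C : Type u) [AddCommGroup C]
    [Module A C] : Prop :=
  Module.Finite A C ∧ FaithfulSMul A C ∧ ∃ rs : List A,
    (∀ r ∈ rs, r ∈ maximalIdeal A) ∧ (∃ k : ℕ, maximalIdeal A ^ k ≤ Ideal.ofList rs) ∧
    RingTheory.Sequence.IsRegular A rs ∧ RingTheory.Sequence.IsRegular C rs ∧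
    ∃ e : C, e ∉ Ideal.ofList rs • (⊤ : Submodule A C) ∧
      (∀ r ∈ maximalIdeal A, r • e ∈ Ideal.ofList rs • (⊤ : Submodule A C)) ∧
      ∀ c : C, (∀ r ∈ maximalIdeal A, r • c ∈ Ideal.ofList rs • (⊤ : Submodule A C)) →
        ∃ a : A, c - a • e ∈ Ideal.ofList rs • (⊤ : Submodule A C)

/-- The `n`-th reflexive power of an ideal `J` of a domain `A`, that is, `A : (A : J ^ n)`, computed
in the fraction field of `A`. -/
def reflexivePower (A : Type u) [CommRing A] [IsDomain A] (J : Ideal A) (n : ℕ) : Set A :=
  {r | ∀ h : FractionRing A,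
    (∀ j ∈ J ^ n, ∃ b : A, h * algebraMap A (FractionRing A) j = algebraMap A (FractionRing A) b) →
    ∃ b : A, h * algebraMap A (FractionRing A) r = algebraMap A (FractionRing A) b}

/-- `A` is a Noetherian Cohen-Macaulay local normal domain with a canonical ideal one of whose
reflexive powers is a non-zero principal ideal. -/
def QGorenstein (A : Type u) [CommRing A] [IsLocalRing A] : Prop :=
  IsNoetherianRing A ∧ IsIntegrallyClosed A ∧ ∃ _ : IsDomain A, ∃ J : Ideal A, IsCanonical A J ∧
    ∃ n : ℕ, 1 ≤ n ∧ ∃ a : A, a ≠ 0 ∧ reflexivePower A J n = Ideal.span {a}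

/-! ### Two general lemmas -/

section

variable {p : ℕ} {A : Type u} [CommRing A]

/-- an element of `A` as an element of `FStar p A` -/
def toF (p : ℕ) (a : A) : FStar p A := a

theorem toF_add (a b : A) : toF p (a + b) = toF p a + toF p b := rfl
theorem toF_zero : toF p (0 : A) = 0 := rfl

variable [Fact p.Prime] [CharP A p]

theorem smul_toF (a b : A) : a • toF p b = toF p (a ^ p * b) := by
  rw [Algebra.smul_def]
  rfl

theorem FPure.of_split (σ : A →+ A) (h : ∀ r a : A, σ (r ^ p * a) = r * σ a) (h1 : σ 1 = 1) :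
    FPure p A := by
  intro M _ _
  let σ' : FStar p A →ₗ[A] A :=
    { toFun := σ
      map_add' := σ.map_add
      map_smul' := by
        intro r a
        have h2 : r • a = toF p (r ^ p * (show A from a)) := smul_toF r (show A from a)
        rw [h2]
        exact h r a }
  let B : M ⊗[A] FStar p A →ₗ[A] M :=
    TensorProduct.lift ((LinearMap.lsmul A M).flip.compl₂ σ')
  have hB : ∀ m : M, B (m ⊗ₜ[A] (1 : FStar p A)) = m := by
    intro m
    show (σ' (1 : FStar p A)) • m = m
    rw [show σ' (1 : FStar p A) = 1 from h1, one_smul]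
  intro m m' hmm
  have := congrArg B hmm
  simpa only [hB] using this

theorem FPure.frobenius_closed (hA : FPure p A) (s : Set A) (u : A)
    (hu : u ^ p ∈ Ideal.span ((fun a => a ^ p) '' s)) : u ∈ Ideal.span s := by
  have h := hA (A ⧸ Ideal.span s)
  rw [← Ideal.Quotient.eq_zero_iff_mem]
  apply h
  show (Ideal.Quotient.mk (Ideal.span s) u) ⊗ₜ[A] (toF p (1 : A)) = 0 ⊗ₜ[A] (1 : FStar p A)
  rw [TensorProduct.zero_tmul]
  have h1 : (Ideal.Quotient.mk (Ideal.span s) u) = u • (1 : A ⧸ Ideal.span s) := by
    rw [Algebra.smul_def, mul_one]; rfl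
  rw [h1, TensorProduct.smul_tmul, smul_toF, mul_one]
  have key : ∀ y ∈ Ideal.span ((fun a => a ^ p) '' s),
      ∀ g : A, (1 : A ⧸ Ideal.span s) ⊗ₜ[A] (toF p (g * y)) = 0 := by
    intro y hy
    refine Submodule.span_induction (p := fun y _ => ∀ g : A,
      (1 : A ⧸ Ideal.span s) ⊗ₜ[A] (toF p (g * y)) = 0) ?_ ?_ ?_ ?_ hy
    · rintro _ ⟨a, ha, rfl⟩ g
      simp only
      rw [mul_comm, ← smul_toF, ← TensorProduct.smul_tmul]
      have h3 : a • (1 : A ⧸ Ideal.span s) = 0 := by
        rw [Algebra.smul_def, mul_one]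
        exact Ideal.Quotient.eq_zero_iff_mem.mpr (Ideal.subset_span ha)
      rw [h3, TensorProduct.zero_tmul]
    · intro g
      rw [mul_zero, toF_zero, TensorProduct.tmul_zero]
    · intro y₁ y₂ _ _ h₁ h₂ g
      rw [mul_add, toF_add, TensorProduct.tmul_add, h₁ g, h₂ g, add_zero]
    · intro a y _ h g
      rw [smul_eq_mul, ← mul_assoc]
      exact h (g * a)
  have h4 := key _ hu 1
  rwa [one_mul] at h4

end

end Pool.Agent.Work.MP_802276_ag
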