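import Mathlib

set_option autoImplicit false

/-!
The ring `P0` of polynomials in `s, t, z` over `ZMod p` all of whose monomials `s^a t^b z^c` have
`a + b` divisible by three.
-/

namespace Pool.Agent.Work.MP_802276_ag

open MvPolynomial

/-- admissible exponents -/
def Ok (d : Fin 3 →₀ ℕ) : Prop := 3 ∣ d 0 + d 1

instance : DecidablePred Ok := fun d => inferInstanceAs (Decidable (3 ∣ d 0 + d 1))

theorem Ok.add {d e : Fin 3 →₀ ℕ} (h : Ok d) (h' : Ok e) : Ok (d + e) := by
  unfold Ok at *
  simp only [Finsupp.add_apply]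
  omega

theorem Ok.of_add {d e : Fin 3 →₀ ℕ} (h : Ok d) (h' : Ok (d + e)) : Ok e := by
  unfold Ok at *
  simp only [Finsupp.add_apply] at h'
  omega

theorem ok_zero : Ok 0 := by
  unfold Ok
  simp

/-- the exponent `(a, b, c)` -/
noncomputable def ex (a b c : ℕ) : Fin 3 →₀ ℕ := Finsupp.equivFunOnFinite.symm ![a, b, c]

@[simp] theorem ex_zero' (a b c : ℕ) : ex a b c 0 = a := rfl
@[simp] theorem ex_one (a b c : ℕ) : ex a b c 1 = b := rfl
@[simp] theorem ex_two (a b c : ℕ) : ex a b c 2 = c := rfl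

theorem ex_ext {d e : Fin 3 →₀ ℕ} (h0 : d 0 = e 0) (h1 : d 1 = e 1) (h2 : d 2 = e 2) : d = e := by
  ext i
  fin_cases i
  · exact h0
  · exact h1
  · exact h2

theorem ex_add (a b c a' b' c' : ℕ) : ex a b c + ex a' b' c' = ex (a + a') (b + b') (c + c') :=
  ex_ext rfl rfl rfl

section ring

variable (p : ℕ) [Fact p.Prime]

/-- the polynomial ring -/
abbrev P := MvPolynomial (Fin 3) (ZMod p)

theorem mul_supp {T : (Fin 3 →₀ ℕ) → Prop} {U V : (Fin 3 →₀ ℕ) → Prop}
    (h : ∀ x y, U x → V y → T (x + y)) {a b : P p} (ha : ∀ d, coeff d a ≠ 0 → U d)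
    (hb : ∀ d, coeff d b ≠ 0 → V d) (d : Fin 3 →₀ ℕ) (hd : coeff d (a * b) ≠ 0) : T d := by
  classical
  rw [coeff_mul] at hd
  obtain ⟨⟨x, y⟩, hxy, hne⟩ := Finset.exists_ne_zero_of_sum_ne_zero hd
  rw [Finset.HasAntidiagonal.mem_antidiagonal] at hxy
  rw [← hxy]
  exact h x y (ha x (left_ne_zero_of_mul hne)) (hb y (right_ne_zero_of_mul hne))

/-- The subring. -/
def P0 : Subring (P p) where
  carrier := {g | ∀ d, coeff d g ≠ 0 → Ok d}
  mul_mem' := by
    intro a b ha hb d hd
    exact mul_supp p (fun x y => Ok.add) ha hb d hd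
  one_mem' := by
    intro d hd
    rw [coeff_one] at hd
    split_ifs at hd with h
    · rw [← h]; exact ok_zero
    · exact absurd rfl hd
  add_mem' := by
    intro a b ha hb d hd
    rw [coeff_add] at hd
    by_cases h : coeff d a = 0
    · rw [h, zero_add] at hd; exact hb d hd
    · exact ha d h
  zero_mem' := by
    intro d hd
    simp at hd
  neg_mem' := by
    intro a ha d hd
    rw [coeff_neg] at hd
    exact ha d (fun h => hd (by rw [h, neg_zero]))

theorem mem_P0 {g : P p} : g ∈ P0 p ↔ ∀ d, coeff d g ≠ 0 → Ok d := Iff.rfl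

/-- the part of a polynomial supported in `P0` -/
noncomputable def pr : P p →ₗ[ZMod p] P p :=
  weightedHomogeneousComponent (![1, 1, 0] : Fin 3 → ZMod 3) 0

theorem coeff_pr (g : P p) (d : Fin 3 →₀ ℕ) : coeff d (pr p g) = if Ok d then coeff d g else 0 := by
  classical
  unfold pr
  rw [coeff_weightedHomogeneousComponent]
  have h : (Finsupp.weight (![1, 1, 0] : Fin 3 → ZMod 3)) d = 0 ↔ Ok d := by
    unfold Ok
    rw [Finsupp.weight_apply, Finsupp.sum_fintype _ _ (by simp), Fin.sum_univ_three]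
    simp only [Matrix.cons_val_zero, Matrix.cons_val_one, Matrix.cons_val_two, Matrix.tail_cons,
      Matrix.head_cons, nsmul_eq_mul, mul_one, mul_zero, add_zero]
    rw [← Nat.cast_add, ZMod.natCast_eq_zero_iff]
  simp only [h]

theorem pr_mem (g : P p) : pr p g ∈ P0 p := by
  intro d hd
  rw [coeff_pr] at hd
  by_contra h
  rw [if_neg h] at hd
  exact hd rfl

theorem pr_of_mem {g : P p} (hg : g ∈ P0 p) : pr p g = g := by
  ext d
  rw [coeff_pr]
  split_ifs with h
  · rfl
  · by_contra hne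
    exact h (hg d (fun h0 => hne h0.symm))

theorem pr_mul {a : P p} (ha : a ∈ P0 p) (g : P p) : pr p (a * g) = a * pr p g := by
  classical
  ext d
  rw [coeff_pr, coeff_mul, coeff_mul]
  by_cases h : Ok d
  · rw [if_pos h]
    refine Finset.sum_congr rfl fun x hx => ?_
    rw [Finset.HasAntidiagonal.mem_antidiagonal] at hx
    by_cases h0 : coeff x.1 a = 0
    · rw [h0, zero_mul, zero_mul]
    · have h1 := ha _ h0
      rw [coeff_pr, if_pos (Ok.of_add h1 (by rw [hx]; exact h))]
  · rw [if_neg h]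
    symm
    refine Finset.sum_eq_zero fun x hx => ?_
    rw [Finset.HasAntidiagonal.mem_antidiagonal] at hx
    by_cases h0 : coeff x.1 a = 0
    · rw [h0, zero_mul]
    · have h1 := ha _ h0
      rw [coeff_pr, if_neg, mul_zero]
      intro h2
      exact h (by rw [← hx]; exact h1.add h2)

/-- Contraction of an extended ideal. -/
theorem comap_map (I : Ideal (P0 p)) : (I.map (P0 p).subtype).comap (P0 p).subtype = I := by
  apply le_antisymm _ Ideal.le_comap_map
  intro x hx
  rw [Ideal.mem_comap, Ideal.map] at hx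
  have key : ∀ y ∈ Ideal.span ((P0 p).subtype '' (I : Set (P0 p))), ∀ g : P p,
      ∃ w ∈ I, (w : P p) = pr p (g * y) := by
    intro y hy
    refine Submodule.span_induction (p := fun y _ => ∀ g : P p, ∃ w ∈ I, (w : P p) = pr p (g * y))
      ?_ ?_ ?_ ?_ hy
    · rintro _ ⟨a, ha, rfl⟩ g
      refine ⟨a * ⟨pr p g, pr_mem p g⟩, I.mul_mem_right _ ha, ?_⟩
      rw [mul_comm g]
      exact (pr_mul p a.2 g).symm
    · intro g
      exact ⟨0, I.zero_mem, by simp⟩
    · intro y₁ y₂ _ _ h₁ h₂ g
      obtain ⟨w₁, hw₁, e₁⟩ := h₁ g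
      obtain ⟨w₂, hw₂, e₂⟩ := h₂ g
      exact ⟨w₁ + w₂, I.add_mem hw₁ hw₂, by rw [mul_add, map_add, ← e₁, ← e₂]; rfl⟩
    · intro a y _ h g
      obtain ⟨w, hw, e⟩ := h (g * a)
      exact ⟨w, hw, by rw [e, smul_eq_mul, mul_assoc]⟩
  obtain ⟨w, hw, e⟩ := key _ hx 1
  have h1 : w = x := by
    apply Subtype.ext
    rw [e, one_mul]
    exact pr_of_mem p x.2
  rw [← h1]
  exact hw

instance : IsNoetherianRing (P0 p) := by
  rw [isNoetherianRing_iff, isNoetherian_iff']
  have h : StrictMono fun I : Ideal (P0 p) => I.map (P0 p).subtype := by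
    apply Monotone.strictMono_of_injective
    · intro I J h
      exact Ideal.map_mono h
    · intro I J h
      simp only at h
      rw [← comap_map p I, h, comap_map p J]
  exact h.wellFoundedGT

instance : IsIntegrallyClosed (P0 p) := by
  rw [isIntegrallyClosed_iff (FractionRing (P0 p))]
  intro x hx
  have hinj : Function.Injective ((algebraMap (P p) (FractionRing (P p))).comp (P0 p).subtype) :=
    (IsFractionRing.injective (P p) (FractionRing (P p))).comp Subtype.val_injective
  set φ : FractionRing (P0 p) →+* FractionRing (P p) := IsFractionRing.lift hinj with hφ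
  have hφa : ∀ a : P0 p, φ (algebraMap (P0 p) _ a) = algebraMap (P p) _ (a : P p) := by
    intro a
    rw [hφ, IsFractionRing.lift_algebraMap]
    rfl
  obtain ⟨a, b, hb, rfl⟩ := IsFractionRing.div_surjective (A := P0 p) x
  have hb0 : (b : P p) ≠ 0 := by
    intro h
    exact nonZeroDivisors.ne_zero hb (Subtype.ext h)
  have hint : IsIntegral (P p) (φ (algebraMap (P0 p) _ a / algebraMap (P0 p) _ b)) := by
    obtain ⟨f, hf, hf0⟩ := hx
    refine ⟨f.map (P0 p).subtype, hf.map _, ?_⟩
    rw [Polynomial.eval₂_map]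
    have h1 : (algebraMap (P p) (FractionRing (P p))).comp (P0 p).subtype =
        φ.comp (algebraMap (P0 p) (FractionRing (P0 p))) := by
      ext a
      exact (hφa a).symm
    rw [h1, ← Polynomial.hom_eval₂, hf0, map_zero]
  obtain ⟨q, hq⟩ := (isIntegrallyClosed_iff (FractionRing (P p))).mp inferInstance hint
  rw [map_div₀, hφa, hφa, eq_div_iff (by
    rw [Ne, FaithfulSMul.algebraMap_eq_zero_iff]; exact hb0), ← map_mul] at hq
  have hq' : q * (b : P p) = a := IsFractionRing.injective (P p) (FractionRing (P p)) hq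
  have h2 : pr p q * (b : P p) = a := by
    rw [mul_comm, ← pr_mul p b.2, mul_comm, hq', pr_of_mem p a.2]
  refine ⟨⟨pr p q, pr_mem p q⟩, ?_⟩
  have hb' : algebraMap (P0 p) (FractionRing (P0 p)) b ≠ 0 := by
    rw [Ne, FaithfulSMul.algebraMap_eq_zero_iff]
    exact nonZeroDivisors.ne_zero hb
  rw [eq_div_iff hb', ← map_mul]
  congr 1
  exact Subtype.ext h2

end ring

end Pool.Agent.Work.MP_802276_ag
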