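import Mathlib
import Pool.Agent.Work.MP_802276_ag.Basic

set_option autoImplicit false

namespace Pool.Agent.Work.MP_802276_ag

open MvPolynomial

variable (p : ℕ) [Fact p.Prime]

/-- monomials in `P0` -/
noncomputable def mo (d : Fin 3 →₀ ℕ) (h : Ok d) : P0 p :=
  ⟨monomial d 1, by
    classical
    intro e he
    rw [coeff_monomial] at he
    split_ifs at he with h1
    · rw [← h1]; exact h
    · exact absurd rfl he⟩

theorem mo_mul {d e : Fin 3 →₀ ℕ} (hd : Ok d) (he : Ok e) :
    mo p d hd * mo p e he = mo p (d + e) (hd.add he) := by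
  apply Subtype.ext
  show monomial d (1 : ZMod p) * monomial e 1 = monomial (d + e) 1
  rw [monomial_mul, one_mul]

theorem mo_congr {d e : Fin 3 →₀ ℕ} (hd : Ok d) (h : d = e) : mo p d hd = mo p e (h ▸ hd) := by
  subst h; rfl

/-- constants in `P0` -/
noncomputable def co (c : ZMod p) : P0 p :=
  ⟨C c, by
    classical
    intro e he
    rw [coeff_C] at he
    split_ifs at he with h1
    · rw [← h1]; exact ok_zero
    · exact absurd rfl he⟩

theorem mem_of_supp {I : Ideal (P0 p)} (g : P0 p)
    (h : ∀ d (hd : Ok d), coeff d (g : P p) ≠ 0 → mo p d hd ∈ I) : g ∈ I := by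
  classical
  have h1 : g = ∑ d ∈ (g : P p).support.attach, co p (coeff d.1 (g : P p)) *
      mo p d.1 (g.2 d.1 (mem_support_iff.mp d.2)) := by
    apply Subtype.ext
    have h2 : (g : P p) = ∑ d ∈ (g : P p).support.attach, monomial d.1 (coeff d.1 (g : P p)) := by
      conv_lhs => rw [as_sum (g : P p)]
      rw [← Finset.sum_attach]
    rw [AddSubmonoidClass.coe_finsetSum]
    conv_lhs => rw [h2]
    refine Finset.sum_congr rfl fun d _ => ?_
    show _ = C (coeff d.1 (g : P p)) * monomial d.1 1
    rw [C_mul_monomial, mul_one]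
  rw [h1]
  exact I.sum_mem fun d _ => I.mul_mem_left _ (h d.1 _ (mem_support_iff.mp d.2))

/-- monomial ideals of `P0` -/
def MI (T : (Fin 3 →₀ ℕ) → Prop) (hT : ∀ x y, Ok x → T y → T (x + y)) : Ideal (P0 p) where
  carrier := {g | ∀ d, coeff d (g : P p) ≠ 0 → T d}
  add_mem' := by
    intro a b ha hb d hd
    rw [show ((a + b : P0 p) : P p) = (a : P p) + b from rfl, coeff_add] at hd
    by_cases h : coeff d (a : P p) = 0
    · rw [h, zero_add] at hd; exact hb d hd
    · exact ha d h
  zero_mem' := by
    intro d hd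
    simp at hd
  smul_mem' := by
    intro a b hb d hd
    exact mul_supp p hT a.2 hb d hd

theorem mem_MI {T : (Fin 3 →₀ ℕ) → Prop} {hT : ∀ x y, Ok x → T y → T (x + y)} {g : P0 p} :
    g ∈ MI p T hT ↔ ∀ d, coeff d (g : P p) ≠ 0 → T d := Iff.rfl

theorem mo_mem_MI {T : (Fin 3 →₀ ℕ) → Prop} {hT : ∀ x y, Ok x → T y → T (x + y)}
    {d : Fin 3 →₀ ℕ} (hd : Ok d) (h : T d) : mo p d hd ∈ MI p T hT := by
  classical
  intro e he
  change coeff e (monomial d (1 : ZMod p)) ≠ 0 at he
  rw [coeff_monomial] at he
  split_ifs at he with h1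
  · rw [← h1]; exact h
  · exact absurd rfl he

/-- The maximal ideal. -/
noncomputable def m0 : Ideal (P0 p) :=
  RingHom.ker ((constantCoeff : P p →+* ZMod p).comp (P0 p).subtype)

theorem mem_m0 {g : P0 p} : g ∈ m0 p ↔ coeff 0 (g : P p) = 0 := by
  unfold m0
  rw [RingHom.mem_ker]
  rfl

instance : (m0 p).IsPrime := RingHom.ker_isPrime _

theorem X_pow_dvd {i : Fin 3} {m : ℕ} {a : P p} :
    (X i : P p) ^ m ∣ a ↔ ∀ d, coeff d a ≠ 0 → m ≤ d i := by
  classical
  have h0 : (X i : P p) ^ m = monomial (Finsupp.single i m) 1 := by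
    rw [X_pow_eq_monomial]
  rw [h0, monomial_one_dvd_iff_modMonomial_eq_zero]
  constructor
  · intro h d hd
    by_contra hlt
    have h1 : ¬ Finsupp.single i m ≤ d := by
      intro hle
      rw [Finsupp.single_le_iff] at hle
      exact hlt hle
    have h2 := coeff_modMonomial_of_not_le a h1
    rw [h] at h2
    exact hd (by rw [← h2]; simp)
  · intro h
    ext d
    by_cases hle : Finsupp.single i m ≤ d
    · rw [coeff_modMonomial_of_le a hle]; simp
    · rw [coeff_modMonomial_of_not_le a hle]
      by_contra hne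
      apply hle
      rw [Finsupp.single_le_iff]
      exact h d (by simpa using hne)

theorem pow_dvd_of_mul {i : Fin 3} {m : ℕ} {c a : P p} (hc : coeff 0 c ≠ 0)
    (h : (X i : P p) ^ m ∣ c * a) : (X i : P p) ^ m ∣ a := by
  refine (X_prime (R := ZMod p) (i := i)).pow_dvd_of_dvd_mul_left m ?_ h
  intro hdvd
  have h1 := (X_pow_dvd p (i := i) (m := 1) (a := c)).mp (by rwa [pow_one]) 0 hc
  simp at h1

/-- The local ring. -/
def R : Type := Localization.AtPrime (m0 p)

noncomputable instance : CommRing (R p) := inferInstanceAs (CommRing (Localization.AtPrime (m0 p)))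

noncomputable instance : Algebra (P0 p) (R p) :=
  inferInstanceAs (Algebra (P0 p) (Localization.AtPrime (m0 p)))

instance : IsLocalization.AtPrime (R p) (m0 p) :=
  inferInstanceAs (IsLocalization.AtPrime (Localization.AtPrime (m0 p)) (m0 p))

instance : IsLocalRing (R p) := inferInstanceAs (IsLocalRing (Localization.AtPrime (m0 p)))

instance : IsDomain (R p) :=
  IsLocalization.isDomain_of_le_nonZeroDivisors (M := (m0 p).primeCompl) (R p)
    (m0 p).primeCompl_le_nonZeroDivisors

instance : IsIntegrallyClosed (R p) :=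
  isIntegrallyClosed_of_isLocalization (R p) (m0 p).primeCompl
    (m0 p).primeCompl_le_nonZeroDivisors

instance : IsNoetherianRing (R p) :=
  IsLocalization.isNoetherianRing (m0 p).primeCompl _ inferInstance

theorem alg_inj : Function.Injective (algebraMap (P0 p) (R p)) :=
  IsLocalization.injective (M := (m0 p).primeCompl) (R p) (m0 p).primeCompl_le_nonZeroDivisors

end Pool.Agent.Work.MP_802276_ag
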