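import Mathlib
import Pool.Agent.Work.MP_802276_ag.Basic
import Pool.Agent.Work.MP_802276_ag.Mono
import Pool.Agent.Work.MP_802276_ag.Defs

set_option autoImplicit false

namespace Pool.Agent.Work.MP_802276_ag

open MvPolynomial IsLocalRing

variable (p : ℕ) [Fact p.Prime]

instance : CharP (P0 p) p := CharP.subring (P p) p (P0 p)

instance : CharP (R p) p := charP_of_injective_ringHom (alg_inj p) p

/-- the map to the local ring -/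
noncomputable abbrev φ : P0 p →+* R p := algebraMap (P0 p) (R p)

theorem max_eq : maximalIdeal (R p) = (m0 p).map (φ p) :=
  (IsLocalization.AtPrime.map_eq_maximalIdeal (m0 p) (R p)).symm

theorem unit_of {σ : P0 p} (h : σ ∉ m0 p) : IsUnit (φ p σ) :=
  IsLocalization.map_units (R p) (⟨σ, h⟩ : (m0 p).primeCompl)

theorem mem_loc {I : Ideal (P0 p)} {r : R p} (h : r ∈ I.map (φ p)) :
    ∃ σ, σ ∉ m0 p ∧ ∃ a ∈ I, φ p σ * r = φ p a := by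
  rw [IsLocalization.mem_map_algebraMap_iff (m0 p).primeCompl] at h
  obtain ⟨⟨a, σ⟩, h⟩ := h
  exact ⟨σ.1, σ.2, a.1, a.2, by rw [mul_comm]; exact h⟩

theorem of_loc {I : Ideal (P0 p)} {r : R p} {σ a : P0 p} (hσ : σ ∉ m0 p) (ha : a ∈ I)
    (h : φ p σ * r = φ p a) : r ∈ I.map (φ p) := by
  rw [← Ideal.unit_mul_mem_iff_mem _ (unit_of p hσ), h]
  exact Ideal.mem_map_of_mem _ ha

theorem alg_mem {I : Ideal (P0 p)} {a : P0 p} (h : φ p a ∈ I.map (φ p)) :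
    ∃ σ, σ ∉ m0 p ∧ σ * a ∈ I := by
  obtain ⟨σ, hσ, b, hb, h⟩ := mem_loc p h
  refine ⟨σ, hσ, ?_⟩
  rw [← map_mul] at h
  rw [alg_inj p h]
  exact hb

theorem mul_notMem {σ τ : P0 p} (h : σ ∉ m0 p) (h' : τ ∉ m0 p) : σ * τ ∉ m0 p :=
  fun hm => ((inferInstance : (m0 p).IsPrime).mem_or_mem hm).elim h h'

theorem surj (r : R p) : ∃ σ, σ ∉ m0 p ∧ ∃ a, φ p σ * r = φ p a := by
  obtain ⟨⟨a, σ⟩, h⟩ := IsLocalization.surj (m0 p).primeCompl r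
  exact ⟨σ.1, σ.2, a, by rw [mul_comm]; exact h⟩

/-- common denominators for three elements of an extended ideal -/
theorem common {I : Ideal (P0 p)} {r₁ r₂ r₃ : R p} (h₁ : r₁ ∈ I.map (φ p))
    (h₂ : r₂ ∈ I.map (φ p)) (h₃ : r₃ ∈ I.map (φ p)) :
    ∃ σ, σ ∉ m0 p ∧ ∃ a₁ ∈ I, ∃ a₂ ∈ I, ∃ a₃ ∈ I, φ p σ * r₁ = φ p a₁ ∧ φ p σ * r₂ = φ p a₂ ∧
      φ p σ * r₃ = φ p a₃ := by
  obtain ⟨σ₁, hσ₁, a₁, ha₁, e₁⟩ := mem_loc p h₁
  obtain ⟨σ₂, hσ₂, a₂, ha₂, e₂⟩ := mem_loc p h₂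
  obtain ⟨σ₃, hσ₃, a₃, ha₃, e₃⟩ := mem_loc p h₃
  refine ⟨σ₁ * σ₂ * σ₃, mul_notMem p (mul_notMem p hσ₁ hσ₂) hσ₃, σ₂ * σ₃ * a₁,
    I.mul_mem_left _ ha₁, σ₁ * σ₃ * a₂, I.mul_mem_left _ ha₂, σ₁ * σ₂ * a₃, I.mul_mem_left _ ha₃,
    ?_, ?_, ?_⟩
  · rw [map_mul, map_mul, map_mul, map_mul, ← e₁]; ring
  · rw [map_mul, map_mul, map_mul, map_mul, ← e₂]; ring
  · rw [map_mul, map_mul, map_mul, map_mul, ← e₃]; ring

theorem exists_quot {I : Ideal (P0 p)} {σ a : P0 p} (hσ : σ ∉ m0 p) (ha : a ∈ I) :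
    ∃ r ∈ I.map (φ p), φ p σ * r = φ p a := by
  obtain ⟨u, hu⟩ := unit_of p hσ
  refine ⟨↑(u⁻¹) * φ p a, Ideal.mul_mem_left _ _ (Ideal.mem_map_of_mem _ ha), ?_⟩
  rw [← hu, Units.mul_inv_cancel_left]

theorem charP_quot {A : Type*} [CommRing A] [CharP A p] (I : Ideal A) (h : I ≠ ⊤) :
    CharP (A ⧸ I) p := by
  have : Nontrivial (A ⧸ I) := Ideal.Quotient.nontrivial_iff.mpr h
  rw [CharP.charP_iff_prime_eq_zero (Fact.out : p.Prime)]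
  rw [← map_natCast (Ideal.Quotient.mk I), CharP.cast_eq_zero, map_zero]

end Pool.Agent.Work.MP_802276_ag
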