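import Mathlib
import Pool.Agent.Work.MP_802276_ag.Basic
import Pool.Agent.Work.MP_802276_ag.Mono
import Pool.Agent.Work.MP_802276_ag.Defs
import Pool.Agent.Work.MP_802276_ag.Loc

set_option autoImplicit false

namespace Pool.Agent.Work.MP_802276_ag

open MvPolynomial IsLocalRing

/-! ### Regular sequences of length three -/

section general

variable {A : Type*} [CommRing A] {M : Type*} [AddCommGroup M] [Module A M]

theorem mem_cons_smul (r : A) (rs : List A) (m : M) :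
    m ∈ Ideal.ofList (r :: rs) • (⊤ : Submodule A M) ↔
      ∃ n : M, ∃ m' ∈ Ideal.ofList rs • (⊤ : Submodule A M), m = r • n + m' := by
  rw [Ideal.ofList_cons_smul, Submodule.mem_sup]
  constructor
  · rintro ⟨y, hy, m', hm', rfl⟩
    rw [Submodule.mem_smul_pointwise_iff_exists] at hy
    obtain ⟨n, _, rfl⟩ := hy
    exact ⟨n, m', hm', rfl⟩
  · rintro ⟨n, m', hm', rfl⟩
    exact ⟨r • n, Submodule.smul_mem_pointwise_smul _ _ _ trivial, m', hm', rfl⟩

theorem mem_nil_smul (m : M) :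
    m ∈ Ideal.ofList ([] : List A) • (⊤ : Submodule A M) ↔ m = 0 := by
  rw [Ideal.ofList_nil, Submodule.bot_smul, Submodule.mem_bot]

theorem mem_one_smul (a : A) (m : M) :
    m ∈ Ideal.ofList [a] • (⊤ : Submodule A M) ↔ ∃ n : M, m = a • n := by
  rw [mem_cons_smul]
  simp only [mem_nil_smul, exists_eq_left, add_zero]

theorem mem_two_smul (a b : A) (m : M) :
    m ∈ Ideal.ofList [a, b] • (⊤ : Submodule A M) ↔ ∃ n l : M, m = a • n + b • l := by
  rw [mem_cons_smul]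
  simp only [mem_one_smul]
  constructor
  · rintro ⟨n, m', ⟨l, rfl⟩, rfl⟩
    exact ⟨n, l, rfl⟩
  · rintro ⟨n, l, rfl⟩
    exact ⟨n, _, ⟨l, rfl⟩, rfl⟩

theorem mem_three_smul (a b c : A) (m : M) :
    m ∈ Ideal.ofList [a, b, c] • (⊤ : Submodule A M) ↔
      ∃ n l k : M, m = a • n + b • l + c • k := by
  rw [mem_cons_smul]
  simp only [mem_two_smul]
  constructor
  · rintro ⟨n, m', ⟨l, k, rfl⟩, rfl⟩
    exact ⟨n, l, k, by rw [add_assoc]⟩
  · rintro ⟨n, l, k, rfl⟩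
    exact ⟨n, _, ⟨l, k, rfl⟩, by rw [add_assoc]⟩

theorem weaklyRegular3 (a b c : A) (h1 : ∀ m : M, a • m = 0 → m = 0)
    (h2 : ∀ m n : M, b • m = a • n → ∃ n' : M, m = a • n')
    (h3 : ∀ m n l : M, c • m = a • n + b • l → ∃ n' l' : M, m = a • n' + b • l') :
    RingTheory.Sequence.IsWeaklyRegular M [a, b, c] := by
  constructor
  intro i hi
  rw [isSMulRegular_quotient_iff_mem_of_smul_mem]
  have hi' : i < 3 := hi
  interval_cases i
  · intro x hx
    simp only [List.take_zero, List.getElem_cons_zero] at hx ⊢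
    rw [mem_nil_smul] at hx ⊢
    exact h1 x hx
  · intro x hx
    change b • x ∈ Ideal.ofList [a] • (⊤ : Submodule A M) at hx
    change x ∈ Ideal.ofList [a] • (⊤ : Submodule A M)
    rw [mem_one_smul] at hx ⊢
    obtain ⟨n, hn⟩ := hx
    exact h2 x n hn
  · intro x hx
    change c • x ∈ Ideal.ofList [a, b] • (⊤ : Submodule A M) at hx
    change x ∈ Ideal.ofList [a, b] • (⊤ : Submodule A M)
    rw [mem_two_smul] at hx ⊢
    obtain ⟨n, l, hn⟩ := hx
    exact h3 x n l hn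

end general

variable (p : ℕ) [Fact p.Prime]

/-! ### The elements and ideals -/

theorem ok_ex (a b c : ℕ) (h : 3 ∣ a + b) : Ok (ex a b c) := h

/-- the element `z` -/
noncomputable def zz : P0 p := mo p (ex 0 0 1) (ok_ex 0 0 1 (by decide))
/-- the element `s ^ 3` -/
noncomputable def s3 : P0 p := mo p (ex 3 0 0) (ok_ex 3 0 0 (by decide))
/-- the element `t ^ 3` -/
noncomputable def t3 : P0 p := mo p (ex 0 3 0) (ok_ex 0 3 0 (by decide))
/-- the element `s ^ 2 * t` -/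
noncomputable def s2t : P0 p := mo p (ex 2 1 0) (ok_ex 2 1 0 (by decide))
/-- the element `s * t ^ 2` -/
noncomputable def st2 : P0 p := mo p (ex 1 2 0) (ok_ex 1 2 0 (by decide))
/-- the element `s ^ 4 * t ^ 2` -/
noncomputable def ww : P0 p := mo p (ex 4 2 0) (ok_ex 4 2 0 (by decide))
/-- the element `s ^ 6` -/
noncomputable def s6 : P0 p := mo p (ex 6 0 0) (ok_ex 6 0 0 (by decide))

theorem coe_mo {d : Fin 3 →₀ ℕ} (hd : Ok d) : ((mo p d hd : P0 p) : P p) = monomial d 1 := rfl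

theorem coeff_mo_mul {d : Fin 3 →₀ ℕ} (hd : Ok d) (a : P0 p) (e : Fin 3 →₀ ℕ) :
    coeff (d + e) ((mo p d hd * a : P0 p) : P p) = coeff e (a : P p) := by
  show coeff (d + e) (monomial d (1 : ZMod p) * (a : P p)) = _
  rw [coeff_monomial_mul, one_mul]

theorem supp_mo_mul {d : Fin 3 →₀ ℕ} (hd : Ok d) (a : P0 p) (e : Fin 3 →₀ ℕ)
    (h : coeff e ((mo p d hd * a : P0 p) : P p) ≠ 0) :
    ∃ e', e = d + e' ∧ coeff e' (a : P p) ≠ 0 := by
  classical
  change coeff e (monomial d (1 : ZMod p) * (a : P p)) ≠ 0 at h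
  rw [coeff_monomial_mul'] at h
  split_ifs at h with hle
  · refine ⟨e - d, (add_tsub_cancel_of_le hle).symm, ?_⟩
    rwa [one_mul] at h
  · exact absurd rfl h

/-- monomials with `s`-exponent at least `e` -/
def Je (e : ℕ) : Ideal (P0 p) := MI p (fun d => e ≤ d 0) (by
  intro x y _ h
  simp only [Finsupp.add_apply]
  omega)

theorem mem_Je {e : ℕ} {g : P0 p} : g ∈ Je p e ↔ ∀ d, coeff d (g : P p) ≠ 0 → e ≤ d 0 := Iff.rfl

theorem Je_zero : Je p 0 = ⊤ := by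
  rw [Ideal.eq_top_iff_one, mem_Je]
  intro d _
  exact Nat.zero_le _

theorem mo_mem_Je {e : ℕ} {d : Fin 3 →₀ ℕ} (hd : Ok d) (h : e ≤ d 0) : mo p d hd ∈ Je p e :=
  mo_mem_MI p hd h

theorem mo_eq_mul {d e : Fin 3 →₀ ℕ} (hd : Ok d) (he : Ok e) (h : ∀ i, e i ≤ d i) :
    ∃ h' : Ok (d - e), mo p d hd = mo p e he * mo p (d - e) h' := by
  have hle : e ≤ d := h
  have h1 : e + (d - e) = d := add_tsub_cancel_of_le hle
  have h2 : Ok (d - e) := he.of_add (by rw [h1]; exact hd)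
  refine ⟨h2, ?_⟩
  rw [mo_mul]
  exact mo_congr p hd h1.symm

theorem fin3 {q : Fin 3 → Prop} (h0 : q 0) (h1 : q 1) (h2 : q 2) : ∀ i, q i := by
  intro i
  fin_cases i
  · exact h0
  · exact h1
  · exact h2

/-! ### `z, s³, t³` is a regular sequence -/

theorem r1 {e : ℕ} {a b : P0 p} (ha : a ∈ Je p e) (h : s3 p * a = zz p * b) :
    ∃ b' ∈ Je p e, a = zz p * b' := by
  have h1 : a ∈ Ideal.span {zz p} * Je p e := by
    apply mem_of_supp
    intro d hd hne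
    have h2 : 1 ≤ d 2 := by
      have h3 : coeff (ex 3 0 0 + d) ((s3 p * a : P0 p) : P p) ≠ 0 := by
        rw [s3, coeff_mo_mul]; exact hne
      rw [h] at h3
      obtain ⟨e', he', -⟩ := supp_mo_mul p _ b _ h3
      have h4 := DFunLike.congr_fun he' 2
      simp only [Finsupp.add_apply, ex_two] at h4
      omega
    obtain ⟨h', heq⟩ := mo_eq_mul p hd (e := ex 0 0 1) (ok_ex 0 0 1 (by decide))
      (fin3 (by simp) (by simp) (by simpa using h2))
    rw [heq, Ideal.mem_span_singleton_mul]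
    refine ⟨_, mo_mem_Je p h' ?_, rfl⟩
    have h5 := mem_Je p |>.mp ha d hne
    simpa [Finsupp.tsub_apply] using h5
  rw [Ideal.mem_span_singleton_mul] at h1
  obtain ⟨b', hb', h'⟩ := h1
  exact ⟨b', hb', h'.symm⟩

theorem r2 {e : ℕ} {a b c : P0 p} (ha : a ∈ Je p e) (hc : c ∈ Je p e)
    (h : t3 p * a = zz p * b + s3 p * c) :
    ∃ b' ∈ Je p e, ∃ c' ∈ Je p e, a = zz p * b' + s3 p * c' := by
  have h1 : a ∈ Ideal.span {zz p} * Je p e ⊔ Ideal.span {s3 p} * Je p e := by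
    apply mem_of_supp
    intro d hd hne
    have h5 := mem_Je p |>.mp ha d hne
    have h2 : 1 ≤ d 2 ∨ 3 + e ≤ d 0 := by
      have h3 : coeff (ex 0 3 0 + d) ((t3 p * a : P0 p) : P p) ≠ 0 := by
        rw [t3, coeff_mo_mul]; exact hne
      rw [h] at h3
      change coeff (ex 0 3 0 + d) (((zz p * b : P0 p) : P p) + ((s3 p * c : P0 p) : P p)) ≠ 0 at h3
      rw [coeff_add] at h3
      by_cases h4 : coeff (ex 0 3 0 + d) ((zz p * b : P0 p) : P p) = 0
      · rw [h4, zero_add] at h3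
        obtain ⟨e', he', hne'⟩ := supp_mo_mul p _ c _ h3
        have h6 := mem_Je p |>.mp hc e' hne'
        have h7 := DFunLike.congr_fun he' 0
        simp only [Finsupp.add_apply, ex_zero'] at h7
        right
        omega
      · obtain ⟨e', he', -⟩ := supp_mo_mul p _ b _ h4
        have h7 := DFunLike.congr_fun he' 2
        simp only [Finsupp.add_apply, ex_two] at h7
        left
        omega
    rcases h2 with h2 | h2
    · apply Ideal.mem_sup_left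
      obtain ⟨h', heq⟩ := mo_eq_mul p hd (e := ex 0 0 1) (ok_ex 0 0 1 (by decide))
        (fin3 (by simp) (by simp) (by simpa using h2))
      rw [heq, Ideal.mem_span_singleton_mul]
      refine ⟨_, mo_mem_Je p h' ?_, rfl⟩
      simpa [Finsupp.tsub_apply] using h5
    · apply Ideal.mem_sup_right
      obtain ⟨h', heq⟩ := mo_eq_mul p hd (e := ex 3 0 0) (ok_ex 3 0 0 (by decide))
        (fin3 (by simp only [ex_zero']; omega) (by simp) (by simp))
      rw [heq, Ideal.mem_span_singleton_mul]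
      refine ⟨_, mo_mem_Je p h' ?_, rfl⟩
      simp only [Finsupp.tsub_apply, ex_zero']
      omega
  rw [Submodule.mem_sup] at h1
  obtain ⟨y, hy, w, hw, rfl⟩ := h1
  rw [Ideal.mem_span_singleton_mul] at hy hw
  obtain ⟨b', hb', rfl⟩ := hy
  obtain ⟨c', hc', rfl⟩ := hw
  exact ⟨b', hb', c', hc', rfl⟩

theorem phi_ne_zero {a : P0 p} (h : a ≠ 0) : φ p a ≠ 0 := by
  intro h0
  exact h (alg_inj p (by rw [h0, map_zero]))

theorem phi_ne_zero' {σ : P0 p} (h : σ ∉ m0 p) : φ p σ ≠ 0 := (unit_of p h).ne_zero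

theorem r1' {e : ℕ} {r₁ r₂ : R p} (h₁ : r₁ ∈ (Je p e).map (φ p)) (h₂ : r₂ ∈ (Je p e).map (φ p))
    (h : φ p (s3 p) * r₁ = φ p (zz p) * r₂) :
    ∃ r ∈ (Je p e).map (φ p), r₁ = φ p (zz p) * r := by
  obtain ⟨σ, hσ, a₁, ha₁, a₂, ha₂, -, -, e₁, e₂, -⟩ := common p h₁ h₂ h₂
  have h1 : s3 p * a₁ = zz p * a₂ := by
    apply alg_inj p
    rw [map_mul, map_mul, ← e₁, ← e₂]
    linear_combination (φ p σ) * h
  obtain ⟨b', hb', h2⟩ := r1 p ha₁ h1
  obtain ⟨r, hr, h3⟩ := exists_quot p hσ hb'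
  refine ⟨r, hr, ?_⟩
  apply mul_left_cancel₀ (phi_ne_zero' p hσ)
  rw [e₁, h2, map_mul, ← h3]
  ring

theorem r2' {e : ℕ} {r₁ r₂ r₃ : R p} (h₁ : r₁ ∈ (Je p e).map (φ p))
    (h₂ : r₂ ∈ (Je p e).map (φ p)) (h₃ : r₃ ∈ (Je p e).map (φ p))
    (h : φ p (t3 p) * r₁ = φ p (zz p) * r₂ + φ p (s3 p) * r₃) :
    ∃ r ∈ (Je p e).map (φ p), ∃ q ∈ (Je p e).map (φ p),
      r₁ = φ p (zz p) * r + φ p (s3 p) * q := by
  obtain ⟨σ, hσ, a₁, ha₁, a₂, ha₂, a₃, ha₃, e₁, e₂, e₃⟩ := common p h₁ h₂ h₃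
  have h1 : t3 p * a₁ = zz p * a₂ + s3 p * a₃ := by
    apply alg_inj p
    rw [map_add, map_mul, map_mul, map_mul, ← e₁, ← e₂, ← e₃]
    linear_combination (φ p σ) * h
  obtain ⟨b', hb', c', hc', h2⟩ := r2 p ha₁ ha₃ h1
  obtain ⟨r, hr, h3⟩ := exists_quot p hσ hb'
  obtain ⟨q, hq, h4⟩ := exists_quot p hσ hc'
  refine ⟨r, hr, q, hq, ?_⟩
  apply mul_left_cancel₀ (phi_ne_zero' p hσ)
  rw [e₁, h2, map_add, map_mul, map_mul, ← h3, ← h4]
  ring

theorem mo_ne_zero {d : Fin 3 →₀ ℕ} (hd : Ok d) : mo p d hd ≠ 0 := by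
  intro h
  have h1 : (monomial d (1 : ZMod p) : P p) = 0 := congrArg Subtype.val h
  rw [monomial_eq_zero] at h1
  exact one_ne_zero h1

/-- the sequence `z, s³, t³` -/
noncomputable def rs : List (R p) := [φ p (zz p), φ p (s3 p), φ p (t3 p)]

theorem mo_mem_m0 {d : Fin 3 →₀ ℕ} (hd : Ok d) (h : d ≠ 0) : mo p d hd ∈ m0 p := by
  classical
  rw [mem_m0, coe_mo, coeff_monomial, if_neg h]

theorem ex_ne {a b c : ℕ} (h : 0 < a + b + c) : ex a b c ≠ 0 := by
  intro h0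
  have h1 := DFunLike.congr_fun h0 0
  have h2 := DFunLike.congr_fun h0 1
  have h3 := DFunLike.congr_fun h0 2
  simp only [ex_zero', ex_one, ex_two, Finsupp.coe_zero, Pi.zero_apply] at h1 h2 h3
  omega

theorem mem_max {a : P0 p} (h : a ∈ m0 p) : φ p a ∈ maximalIdeal (R p) := by
  rw [max_eq]
  exact Ideal.mem_map_of_mem _ h

theorem rs_mem : ∀ r ∈ rs p, r ∈ maximalIdeal (R p) := by
  intro r hr
  simp only [rs, List.mem_cons, List.not_mem_nil, or_false] at hr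
  rcases hr with rfl | rfl | rfl
  · exact mem_max p (mo_mem_m0 p _ (ex_ne (by decide)))
  · exact mem_max p (mo_mem_m0 p _ (ex_ne (by decide)))
  · exact mem_max p (mo_mem_m0 p _ (ex_ne (by decide)))

theorem reg_ring : RingTheory.Sequence.IsRegular (R p) (rs p) := by
  rw [IsLocalRing.isRegular_iff_isWeaklyRegular_of_subset_maximalIdeal (rs_mem p)]
  have htop : ∀ r : R p, r ∈ (Je p 0).map (φ p) := by
    intro r
    rw [Je_zero, Ideal.map_top]
    trivial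
  apply weaklyRegular3
  · intro m hm
    rw [smul_eq_mul, mul_eq_zero] at hm
    exact hm.resolve_left (phi_ne_zero p (mo_ne_zero p _))
  · intro m n h
    obtain ⟨r, -, h'⟩ := r1' p (htop m) (htop n) h
    exact ⟨r, h'⟩
  · intro m n l h
    obtain ⟨r, -, q, -, h'⟩ := r2' p (htop m) (htop n) (htop l) h
    exact ⟨r, q, h'⟩

/-- the canonical ideal -/
noncomputable def J : Ideal (R p) := (Je p 2).map (φ p)

theorem s3_mem_J : φ p (s3 p) ∈ J p := Ideal.mem_map_of_mem _ (mo_mem_Je p _ (by simp))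

instance : Nontrivial (J p) :=
  ⟨⟨⟨φ p (s3 p), s3_mem_J p⟩, 0, fun h => phi_ne_zero p (mo_ne_zero p _) (congrArg Subtype.val h)⟩⟩

theorem reg_J : RingTheory.Sequence.IsRegular (J p) (rs p) := by
  rw [IsLocalRing.isRegular_iff_isWeaklyRegular_of_subset_maximalIdeal (rs_mem p)]
  apply weaklyRegular3
  · intro m hm
    have h1 : φ p (zz p) * (m : R p) = 0 := congrArg Subtype.val hm
    rw [mul_eq_zero] at h1
    exact Subtype.ext (h1.resolve_left (phi_ne_zero p (mo_ne_zero p _)))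
  · intro m n h
    obtain ⟨r, hr, h'⟩ := r1' p m.2 n.2 (congrArg Subtype.val h)
    exact ⟨⟨r, hr⟩, Subtype.ext h'⟩
  · intro m n l h
    obtain ⟨r, hr, q, hq, h'⟩ := r2' p m.2 n.2 l.2 (congrArg Subtype.val h)
    exact ⟨⟨r, hr⟩, ⟨q, hq⟩, Subtype.ext h'⟩

/-! ### `z, s³, t³` generate a primary ideal -/

theorem Ok.pos {d : Fin 3 →₀ ℕ} (h : Ok d) (h0 : d ≠ 0) : 1 ≤ d 2 ∨ 3 ≤ d 0 + d 1 := by
  by_contra hcon
  push Not at hcon
  unfold Ok at h
  apply h0
  apply ex_ext <;> simp only [Finsupp.coe_zero, Pi.zero_apply] <;> omega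

theorem m0_supp {g : P0 p} (h : g ∈ m0 p) (d : Fin 3 →₀ ℕ) (hd : coeff d (g : P p) ≠ 0) :
    Ok d ∧ d ≠ 0 := by
  refine ⟨g.2 d hd, ?_⟩
  rintro rfl
  exact hd (mem_m0 p |>.mp h)

theorem sq_le : m0 p ^ 2 ≤ Ideal.ofList [zz p, s3 p, t3 p] := by
  rw [pow_two, Ideal.mul_le]
  intro a ha b hb
  apply mem_of_supp
  intro d hd hne
  have h1 : 1 ≤ d 2 ∨ 6 ≤ d 0 + d 1 := by
    refine mul_supp p (T := fun d => 1 ≤ d 2 ∨ 6 ≤ d 0 + d 1)
      (U := fun d => Ok d ∧ d ≠ 0) (V := fun d => Ok d ∧ d ≠ 0) ?_ (m0_supp p ha) (m0_supp p hb)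
      d hne
    rintro x y ⟨hx, hx0⟩ ⟨hy, hy0⟩
    have h2 := hx.pos hx0
    have h3 := hy.pos hy0
    simp only [Finsupp.add_apply]
    omega
  have hmem : ∀ r ∈ [zz p, s3 p, t3 p], r ∈ Ideal.ofList [zz p, s3 p, t3 p] :=
    fun r hr => Ideal.subset_span hr
  have h2 : 1 ≤ d 2 ∨ 3 ≤ d 0 ∨ 3 ≤ d 1 := by omega
  rcases h2 with h2 | h2 | h2
  · obtain ⟨h', heq⟩ := mo_eq_mul p hd (e := ex 0 0 1) (ok_ex 0 0 1 (by decide))
      (fin3 (by simp) (by simp) (by simpa using h2))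
    rw [heq]
    exact Ideal.mul_mem_right _ _ (hmem _ (by simp [zz]))
  · obtain ⟨h', heq⟩ := mo_eq_mul p hd (e := ex 3 0 0) (ok_ex 3 0 0 (by decide))
      (fin3 (by simpa using h2) (by simp) (by simp))
    rw [heq]
    exact Ideal.mul_mem_right _ _ (hmem _ (by simp [s3]))
  · obtain ⟨h', heq⟩ := mo_eq_mul p hd (e := ex 0 3 0) (ok_ex 0 3 0 (by decide))
      (fin3 (by simp) (by simpa using h2) (by simp))
    rw [heq]
    exact Ideal.mul_mem_right _ _ (hmem _ (by simp [t3]))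

theorem max_sq_le : maximalIdeal (R p) ^ 2 ≤ Ideal.ofList (rs p) := by
  rw [max_eq, ← Ideal.map_pow]
  have h1 : Ideal.ofList (rs p) = (Ideal.ofList [zz p, s3 p, t3 p]).map (φ p) := by
    rw [Ideal.map_ofList]
    rfl
  rw [h1]
  exact Ideal.map_mono (sq_le p)

end Pool.Agent.Work.MP_802276_ag
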