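import Mathlib
import Pool.Agent.Work.MP_802276_ag.Basic
import Pool.Agent.Work.MP_802276_ag.Mono
import Pool.Agent.Work.MP_802276_ag.Defs
import Pool.Agent.Work.MP_802276_ag.Loc
import Pool.Agent.Work.MP_802276_ag.Canon

set_option autoImplicit false

namespace Pool.Agent.Work.MP_802276_ag

open MvPolynomial IsLocalRing

variable (p : ℕ) [Fact p.Prime]

/-! ### The socle -/

/-- exponents of `(z, s³, t³) J` -/
def TQ (d : Fin 3 →₀ ℕ) : Prop := 2 ≤ d 0 ∧ (1 ≤ d 2 ∨ 5 ≤ d 0 ∨ 3 ≤ d 1)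

/-- the ideal `(z, s³, t³) J` -/
def QQ : Ideal (P0 p) := MI p TQ (by
  intro x y _ h
  unfold TQ at *
  simp only [Finsupp.add_apply]
  omega)

theorem mem_QQ {g : P0 p} : g ∈ QQ p ↔ ∀ d, coeff d (g : P p) ≠ 0 → TQ d := Iff.rfl

theorem QQ_le {a : P0 p} (ha : a ∈ QQ p) :
    ∃ n ∈ Je p 2, ∃ l ∈ Je p 2, ∃ k ∈ Je p 2, a = zz p * n + s3 p * l + t3 p * k := by
  have h1 : a ∈ (Ideal.span {zz p} * Je p 2 ⊔ Ideal.span {s3 p} * Je p 2) ⊔
      Ideal.span {t3 p} * Je p 2 := by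
    apply mem_of_supp
    intro d hd hne
    obtain ⟨h2, h3⟩ := mem_QQ p |>.mp ha d hne
    rcases h3 with h3 | h3 | h3
    · apply Ideal.mem_sup_left
      apply Ideal.mem_sup_left
      obtain ⟨h', heq⟩ := mo_eq_mul p hd (e := ex 0 0 1) (ok_ex 0 0 1 (by decide))
        (fin3 (by simp) (by simp) (by simpa using h3))
      rw [heq, Ideal.mem_span_singleton_mul]
      refine ⟨_, mo_mem_Je p h' ?_, rfl⟩
      simpa [Finsupp.tsub_apply] using h2
    · apply Ideal.mem_sup_left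
      apply Ideal.mem_sup_right
      obtain ⟨h', heq⟩ := mo_eq_mul p hd (e := ex 3 0 0) (ok_ex 3 0 0 (by decide))
        (fin3 (by simp only [ex_zero']; omega) (by simp) (by simp))
      rw [heq, Ideal.mem_span_singleton_mul]
      refine ⟨_, mo_mem_Je p h' ?_, rfl⟩
      simp only [Finsupp.tsub_apply, ex_zero']
      omega
    · apply Ideal.mem_sup_right
      obtain ⟨h', heq⟩ := mo_eq_mul p hd (e := ex 0 3 0) (ok_ex 0 3 0 (by decide))
        (fin3 (by simp) (by simpa using h3) (by simp))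
      rw [heq, Ideal.mem_span_singleton_mul]
      refine ⟨_, mo_mem_Je p h' ?_, rfl⟩
      simpa [Finsupp.tsub_apply] using h2
  rw [Submodule.mem_sup] at h1
  obtain ⟨y, hy, w, hw, rfl⟩ := h1
  rw [Submodule.mem_sup] at hy
  obtain ⟨y1, hy1, y2, hy2, rfl⟩ := hy
  rw [Ideal.mem_span_singleton_mul] at hw hy1 hy2
  obtain ⟨n, hn, rfl⟩ := hy1
  obtain ⟨l, hl, rfl⟩ := hy2
  obtain ⟨k, hk, rfl⟩ := hw
  exact ⟨n, hn, l, hl, k, hk, rfl⟩

theorem le_QQ {n l k : P0 p} (hn : n ∈ Je p 2) (hl : l ∈ Je p 2) (hk : k ∈ Je p 2) :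
    zz p * n + s3 p * l + t3 p * k ∈ QQ p := by
  refine Ideal.add_mem _ (Ideal.add_mem _ ?_ ?_) ?_
  · rw [mem_QQ]
    intro d hd
    obtain ⟨e, rfl, he⟩ := supp_mo_mul p _ n d hd
    have := mem_Je p |>.mp hn e he
    unfold TQ
    simp only [Finsupp.add_apply, ex_zero', ex_one, ex_two]
    omega
  · rw [mem_QQ]
    intro d hd
    obtain ⟨e, rfl, he⟩ := supp_mo_mul p _ l d hd
    have := mem_Je p |>.mp hl e he
    unfold TQ
    simp only [Finsupp.add_apply, ex_zero', ex_one, ex_two]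
    omega
  · rw [mem_QQ]
    intro d hd
    obtain ⟨e, rfl, he⟩ := supp_mo_mul p _ k d hd
    have := mem_Je p |>.mp hk e he
    unfold TQ
    simp only [Finsupp.add_apply, ex_zero', ex_one, ex_two]
    omega

theorem mem_smul_iff (c : J p) :
    c ∈ Ideal.ofList (rs p) • (⊤ : Submodule (R p) (J p)) ↔ (c : R p) ∈ (QQ p).map (φ p) := by
  rw [rs, mem_three_smul]
  constructor
  · rintro ⟨n, l, k, rfl⟩
    obtain ⟨σ, hσ, a₁, ha₁, a₂, ha₂, a₃, ha₃, e₁, e₂, e₃⟩ := common p n.2 l.2 k.2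
    refine of_loc p hσ (le_QQ p ha₁ ha₂ ha₃) ?_
    rw [map_add, map_add, map_mul, map_mul, map_mul, ← e₁, ← e₂, ← e₃]
    show φ p σ * (φ p (zz p) * (n : R p) + φ p (s3 p) * (l : R p) + φ p (t3 p) * (k : R p)) = _
    ring
  · intro h
    obtain ⟨σ, hσ, a, ha, e⟩ := mem_loc p h
    obtain ⟨n, hn, l, hl, k, hk, rfl⟩ := QQ_le p ha
    obtain ⟨n', hn', e1⟩ := exists_quot p hσ hn
    obtain ⟨l', hl', e2⟩ := exists_quot p hσ hl
    obtain ⟨k', hk', e3⟩ := exists_quot p hσ hk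
    refine ⟨⟨n', hn'⟩, ⟨l', hl'⟩, ⟨k', hk'⟩, ?_⟩
    apply Subtype.ext
    show (c : R p) = φ p (zz p) * n' + φ p (s3 p) * l' + φ p (t3 p) * k'
    apply mul_left_cancel₀ (phi_ne_zero' p hσ)
    rw [e, map_add, map_add, map_mul, map_mul, map_mul, ← e1, ← e2, ← e3]
    ring

theorem not_TQ : ¬ TQ (ex 4 2 0) := by
  unfold TQ
  simp only [ex_zero', ex_one, ex_two]
  omega

theorem ww_notMem : φ p (ww p) ∉ (QQ p).map (φ p) := by
  intro h
  obtain ⟨σ, hσ, hm⟩ := alg_mem p h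
  have h1 : coeff (ex 4 2 0 + 0) ((ww p * σ : P0 p) : P p) = coeff 0 (σ : P p) :=
    coeff_mo_mul p _ σ 0
  rw [add_zero, mul_comm] at h1
  apply not_TQ
  apply mem_QQ p |>.mp hm
  rw [h1]
  exact fun h0 => hσ (mem_m0 p |>.mpr h0)

theorem ww_mem : φ p (ww p) ∈ J p := Ideal.mem_map_of_mem _ (mo_mem_Je p _ (by simp))

theorem max_ww {r : R p} (hr : r ∈ maximalIdeal (R p)) :
    r * φ p (ww p) ∈ (QQ p).map (φ p) := by
  rw [max_eq] at hr
  obtain ⟨σ, hσ, a, ha, e⟩ := mem_loc p hr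
  refine of_loc p hσ (a := ww p * a) ?_ ?_
  · rw [mem_QQ]
    intro d hd
    obtain ⟨e', rfl, he⟩ := supp_mo_mul p _ a d hd
    obtain ⟨h1, h2⟩ := m0_supp p ha e' he
    have h3 := h1.pos h2
    unfold TQ
    simp only [Finsupp.add_apply, ex_zero', ex_one, ex_two]
    omega
  · rw [map_mul, ← e]; ring

theorem coeff_low {d₀ : Fin 3 →₀ ℕ} (h0' : d₀ 0 + d₀ 1 ≤ 3) (h2 : d₀ 2 = 0)
    (τ : P0 p) {a : P0 p} (ha : a ∈ Je p 2) :
    coeff d₀ ((τ * a : P0 p) : P p) = coeff 0 (τ : P p) * coeff d₀ (a : P p) := by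
  have h1 : (τ * a : P0 p) = co p (coeff 0 (τ : P p)) * a + (τ - co p (coeff 0 (τ : P p))) * a := by
    ring
  have hm : (τ - co p (coeff 0 (τ : P p))) ∈ m0 p := by
    rw [mem_m0]
    show coeff 0 ((τ : P p) - C (coeff 0 (τ : P p))) = 0
    rw [coeff_sub, coeff_C, if_pos rfl, sub_self]
  rw [h1]
  show coeff d₀ (C (coeff 0 (τ : P p)) * (a : P p) +
    (((τ - co p (coeff 0 (τ : P p))) * a : P0 p) : P p)) = _
  rw [coeff_add, coeff_C_mul]
  have h3 : coeff d₀ (((τ - co p (coeff 0 (τ : P p))) * a : P0 p) : P p) = 0 := by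
    by_contra hne
    have h4 : d₀ ≠ d₀ := by
      refine mul_supp p (T := fun d => d ≠ d₀) (U := fun d => Ok d ∧ d ≠ 0)
        (V := fun d => Ok d ∧ 2 ≤ d 0) ?_ (m0_supp p hm)
        (fun d hd => ⟨a.2 d hd, mem_Je p |>.mp ha d hd⟩) d₀ hne
      rintro x y ⟨hx, hx0⟩ ⟨hy, hy0⟩ heq
      have h5 := hx.pos hx0
      have h6 := DFunLike.congr_fun heq 0
      have h7 := DFunLike.congr_fun heq 1
      have h8 := DFunLike.congr_fun heq 2
      simp only [Finsupp.add_apply] at h6 h7 h8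
      omega
    exact h4 rfl
  rw [h3, add_zero]

theorem low_zero {σ a b : P0 p} {c : R p} {d e : Fin 3 →₀ ℕ} (hd : Ok d)
    (hbd : b = mo p d hd) (hde : d + e = ex 4 2 0) (h0' : e 0 + e 1 ≤ 3)
    (h2 : e 2 = 0) (ha : a ∈ Je p 2) (hca : φ p σ * c = φ p a)
    (hc : φ p b * c ∈ (QQ p).map (φ p)) : coeff e (a : P p) = 0 := by
  have h1 : φ p (b * a) ∈ (QQ p).map (φ p) := by
    rw [map_mul, ← hca, mul_left_comm]
    exact Ideal.mul_mem_left _ _ hc
  obtain ⟨τ, hτ, hm⟩ := alg_mem p h1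
  have h3 : coeff (ex 4 2 0) ((τ * (b * a) : P0 p) : P p) = 0 := by
    by_contra hne
    exact not_TQ (mem_QQ p |>.mp hm _ hne)
  rw [mul_left_comm, hbd, ← hde, coeff_mo_mul, coeff_low p h0' h2 τ ha, mul_eq_zero] at h3
  exact h3.resolve_left (fun h4 => hτ (mem_m0 p |>.mpr h4))

theorem socle {c : R p} (hc : c ∈ J p)
    (h : ∀ r ∈ maximalIdeal (R p), r * c ∈ (QQ p).map (φ p)) :
    ∃ r : R p, c - r * φ p (ww p) ∈ (QQ p).map (φ p) := by
  obtain ⟨σ, hσ, a, ha, hca⟩ := mem_loc p hc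
  have hm1 : s2t p ∈ m0 p := mo_mem_m0 p _ (ex_ne (by decide))
  have hm2 : st2 p ∈ m0 p := mo_mem_m0 p _ (ex_ne (by decide))
  have h1 : coeff (ex 2 1 0) (a : P p) = 0 :=
    low_zero p (e := ex 2 1 0) (ok_ex 2 1 0 (by decide)) rfl (ex_add _ _ _ _ _ _)
      (by simp) (by simp) ha hca (h _ (mem_max p hm1))
  have h2 : coeff (ex 3 0 0) (a : P p) = 0 :=
    low_zero p (e := ex 3 0 0) (ok_ex 1 2 0 (by decide)) rfl (ex_add _ _ _ _ _ _)
      (by simp) (by simp) ha hca (h _ (mem_max p hm2))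
  obtain ⟨r, -, hr⟩ := exists_quot p (I := ⊤) hσ (a := co p (coeff (ex 4 2 0) (a : P p))) trivial
  refine ⟨r, of_loc p hσ (a := a - co p (coeff (ex 4 2 0) (a : P p)) * ww p) ?_ ?_⟩
  · rw [mem_QQ]
    intro d hd
    change coeff d ((a : P p) - C (coeff (ex 4 2 0) (a : P p)) * monomial (ex 4 2 0) 1) ≠ 0 at hd
    rw [coeff_sub, coeff_C_mul] at hd
    by_cases hd4 : d = ex 4 2 0
    · exfalso
      apply hd
      rw [hd4, coeff_monomial, if_pos rfl, mul_one, sub_self]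
    · rw [coeff_monomial, if_neg (Ne.symm hd4), mul_zero, sub_zero] at hd
      have h3 : d ≠ ex 2 1 0 := fun h => hd (by rw [h, h1])
      have h4 : d ≠ ex 3 0 0 := fun h => hd (by rw [h, h2])
      have h5 : 3 ∣ d 0 + d 1 := a.2 d hd
      have h6 := mem_Je p |>.mp ha d hd
      unfold TQ
      by_contra hcon
      have h7 : d 2 = 0 := by omega
      have h8 : d 0 ≤ 4 := by omega
      have h9 : d 1 ≤ 2 := by omega
      have h10 : (d 0 = 2 ∧ d 1 = 1) ∨ (d 0 = 3 ∧ d 1 = 0) ∨ (d 0 = 4 ∧ d 1 = 2) := by omega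
      rcases h10 with ⟨h11, h12⟩ | ⟨h11, h12⟩ | ⟨h11, h12⟩
      · exact h3 (ex_ext h11 h12 h7)
      · exact h4 (ex_ext h11 h12 h7)
      · exact hd4 (ex_ext h11 h12 h7)
  · rw [map_sub, map_mul, ← hca, ← hr]
    ring

theorem canonical : IsCanonical (R p) (J p) := by
  refine ⟨inferInstance, ⟨?_⟩, rs p, rs_mem p, ⟨2, max_sq_le p⟩, reg_ring p, reg_J p,
    ⟨φ p (ww p), ww_mem p⟩, ?_, ?_, ?_⟩
  · intro r r' h
    have h1 : r * φ p (s3 p) = r' * φ p (s3 p) := congrArg Subtype.val (h ⟨_, s3_mem_J p⟩)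
    exact mul_right_cancel₀ (phi_ne_zero p (mo_ne_zero p _)) h1
  · rw [mem_smul_iff]
    exact ww_notMem p
  · intro r hr
    rw [mem_smul_iff]
    exact max_ww p hr
  · intro c hc
    obtain ⟨r, hr⟩ := socle p c.2 (fun r hr => by
      have := hc r hr
      rw [mem_smul_iff] at this
      exact this)
    refine ⟨r, ?_⟩
    rw [mem_smul_iff]
    exact hr

/-! ### The third reflexive power is principal -/

theorem Je_mul (e e' : ℕ) : Je p e * Je p e' ≤ Je p (e + e') := by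
  rw [Ideal.mul_le]
  intro a ha b hb
  rw [mem_Je]
  refine mul_supp p (T := fun d => e + e' ≤ d 0) (U := fun d => e ≤ d 0) (V := fun d => e' ≤ d 0) ?_
    (mem_Je p |>.mp ha) (mem_Je p |>.mp hb)
  intro x y hx hy
  simp only [Finsupp.add_apply]
  omega

theorem Je_six : Je p 6 ≤ Ideal.span {s6 p} := by
  intro a ha
  apply mem_of_supp
  intro d hd hne
  obtain ⟨h', heq⟩ := mo_eq_mul p hd (e := ex 6 0 0) (ok_ex 6 0 0 (by decide))
    (fin3 (by simpa using mem_Je p |>.mp ha d hne) (by simp) (by simp))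
  rw [heq]
  exact Ideal.mul_mem_right _ _ (Ideal.subset_span rfl)

theorem J_cube : J p ^ 3 ≤ Ideal.span {φ p (s6 p)} := by
  have h1 : Je p 2 ^ 3 ≤ Ideal.span {s6 p} := by
    refine le_trans ?_ (Je_six p)
    have h2 : Je p 2 ^ 3 = Je p 2 * Je p 2 * Je p 2 := by ring
    rw [h2]
    exact (Ideal.mul_mono_left (Je_mul p 2 2)).trans (Je_mul p 4 2)
  rw [J, ← Ideal.map_pow]
  have h3 : Ideal.span {φ p (s6 p)} = (Ideal.span {s6 p}).map (φ p) := by
    rw [Ideal.map_span, Set.image_singleton]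
  rw [h3]
  exact Ideal.map_mono h1

theorem r3 {a c : P0 p} (h : t3 p * a = s3 p * c) : ∃ c', a = s3 p * c' := by
  have h1 : a ∈ Ideal.span {s3 p} := by
    apply mem_of_supp
    intro d hd hne
    have h3 : coeff (ex 0 3 0 + d) ((t3 p * a : P0 p) : P p) ≠ 0 := by
      rw [t3, coeff_mo_mul]; exact hne
    rw [h] at h3
    obtain ⟨e', he', -⟩ := supp_mo_mul p _ c _ h3
    have h7 := DFunLike.congr_fun he' 0
    simp only [Finsupp.add_apply, ex_zero'] at h7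
    obtain ⟨h', heq⟩ := mo_eq_mul p hd (e := ex 3 0 0) (ok_ex 3 0 0 (by decide))
      (fin3 (by simp only [ex_zero']; omega) (by simp) (by simp))
    rw [heq]
    exact Ideal.mul_mem_right _ _ (Ideal.subset_span rfl)
  rw [Ideal.mem_span_singleton'] at h1
  obtain ⟨c', hc'⟩ := h1
  exact ⟨c', by rw [mul_comm]; exact hc'.symm⟩

theorem r3' {a c : R p} (h : φ p (t3 p) * a = φ p (s3 p) * c) : ∃ c', a = φ p (s3 p) * c' := by
  have ht : ∀ r : R p, r ∈ (⊤ : Ideal (P0 p)).map (φ p) := by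
    intro r; rw [Ideal.map_top]; trivial
  obtain ⟨σ, hσ, a₁, -, a₂, -, -, -, e₁, e₂, -⟩ := common p (ht a) (ht c) (ht c)
  have h1 : t3 p * a₁ = s3 p * a₂ := by
    apply alg_inj p
    rw [map_mul, map_mul, ← e₁, ← e₂]
    linear_combination (φ p σ) * h
  obtain ⟨b', h2⟩ := r3 p h1
  obtain ⟨r, -, h3⟩ := exists_quot p (I := ⊤) hσ (a := b') trivial
  refine ⟨r, ?_⟩
  apply mul_left_cancel₀ (phi_ne_zero' p hσ)
  rw [e₁, h2, map_mul, ← h3]
  ring

theorem mo_pow {d : Fin 3 →₀ ℕ} (hd : Ok d) (n : ℕ) (e : Fin 3 →₀ ℕ) (he : Ok e)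
    (h : e = n • d) : mo p d hd ^ n = mo p e he := by
  subst h
  apply Subtype.ext
  show (monomial d (1 : ZMod p)) ^ n = monomial (n • d) 1
  rw [monomial_pow, one_pow]

theorem reflexive_of {A : Type*} [CommRing A] [IsDomain A] {J : Ideal A} {n : ℕ} {q u v : A}
    (hq : q ≠ 0) (hu : u ≠ 0) (h1 : J ^ n ≤ Ideal.span {q}) (h2 : q * u ∈ J ^ n)
    (h3 : q * v ∈ J ^ n) (h4 : ∀ a c : A, v * a = u * c → ∃ c', a = u * c') :
    reflexivePower A J n = (Ideal.span {q} : Set A) := by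
  have hinj := IsFractionRing.injective A (FractionRing A)
  have h6 : algebraMap A (FractionRing A) q ≠ 0 := by
    intro h
    exact hq (hinj (by rw [h, map_zero]))
  have h3' : algebraMap A (FractionRing A) u ≠ 0 := by
    intro h
    exact hu (hinj (by rw [h, map_zero]))
  ext r
  constructor
  · intro hr
    obtain ⟨b, hb⟩ := hr (algebraMap A (FractionRing A) q)⁻¹ (by
      intro j hj
      have h1 := h1 hj
      rw [Ideal.mem_span_singleton'] at h1
      obtain ⟨c, rfl⟩ := h1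
      refine ⟨c, ?_⟩
      rw [map_mul, mul_comm, mul_assoc, mul_inv_cancel₀ h6, mul_one])
    show r ∈ Ideal.span {q}
    rw [Ideal.mem_span_singleton']
    refine ⟨b, hinj ?_⟩
    rw [map_mul, ← hb, mul_right_comm, inv_mul_cancel₀ h6, one_mul]
  · intro hr h hh
    change r ∈ Ideal.span {q} at hr
    rw [Ideal.mem_span_singleton'] at hr
    obtain ⟨r', rfl⟩ := hr
    obtain ⟨b1, hb1⟩ := hh _ h2
    obtain ⟨b2, hb2⟩ := hh _ h3
    rw [map_mul] at hb1 hb2
    have h4' : v * b1 = u * b2 := by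
      apply hinj
      rw [map_mul, map_mul, ← hb1, ← hb2]
      ring
    obtain ⟨c', hc'⟩ := h4 _ _ h4'
    refine ⟨c' * r', ?_⟩
    have h5 : h * algebraMap A (FractionRing A) q = algebraMap A (FractionRing A) c' := by
      apply mul_right_cancel₀ h3'
      rw [hc', map_mul] at hb1
      linear_combination hb1
    rw [map_mul, map_mul, ← h5]
    ring

theorem reflexive : reflexivePower (R p) (J p) 3 = (Ideal.span {φ p (s6 p)} : Set (R p)) := by
  have hs : φ p (s3 p) ^ 3 ∈ J p ^ 3 := Ideal.pow_mem_pow (s3_mem_J p) 3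
  have hst : φ p (s2t p) ^ 3 ∈ J p ^ 3 :=
    Ideal.pow_mem_pow (Ideal.mem_map_of_mem _ (mo_mem_Je p _ (by simp))) 3
  have e1 : φ p (s3 p) ^ 3 = φ p (s6 p) * φ p (s3 p) := by
    rw [← map_pow, ← map_mul]
    congr 1
    rw [s3, s6, mo_mul]
    exact mo_pow p _ 3 _ _ (ex_ext (by simp) (by simp) (by simp))
  have e2 : φ p (s2t p) ^ 3 = φ p (s6 p) * φ p (t3 p) := by
    rw [← map_pow, ← map_mul]
    congr 1
    rw [s2t, s6, t3, mo_mul]
    exact mo_pow p _ 3 _ _ (ex_ext (by simp) (by simp) (by simp))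
  refine reflexive_of (u := φ p (s3 p)) (v := φ p (t3 p)) ?_ ?_ (J_cube p) (e1 ▸ hs) (e2 ▸ hst)
    (fun a c h => r3' p h)
  · exact phi_ne_zero p (mo_ne_zero p _)
  · exact phi_ne_zero p (mo_ne_zero p _)

theorem qGorenstein : QGorenstein (R p) :=
  ⟨inferInstance, inferInstance, inferInstance, J p, canonical p, 3, by norm_num, φ p (s6 p),
    phi_ne_zero p (mo_ne_zero p _), reflexive p⟩

end Pool.Agent.Work.MP_802276_ag
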