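import Mathlib
import Pool.Agent.Work.MP_802276_ag.Basic
import Pool.Agent.Work.MP_802276_ag.Mono
import Pool.Agent.Work.MP_802276_ag.Defs
import Pool.Agent.Work.MP_802276_ag.Loc
import Pool.Agent.Work.MP_802276_ag.Canon

set_option autoImplicit false

namespace Pool.Agent.Work.MP_802276_ag

open MvPolynomial IsLocalRing

theorem mem_span3 {B : Type*} [CommRing B] {a b c u : B} :
    u ∈ Ideal.span {a, b, c} ↔ ∃ x y w : B, u = x * a + y * b + w * c := by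
  rw [Ideal.mem_span_insert]
  constructor
  · rintro ⟨x, v, hv, rfl⟩
    rw [Ideal.mem_span_pair] at hv
    obtain ⟨y, w, rfl⟩ := hv
    exact ⟨x, y, w, by ring⟩
  · rintro ⟨x, y, w, rfl⟩
    exact ⟨x, y * b + w * c, Ideal.mem_span_pair.mpr ⟨y, w, rfl⟩, by ring⟩

theorem ident {B : Type*} [CommRing B] (s t z : B) (q K : ℕ) :
    (s ^ 4 * t ^ 2 * z ^ (q + 1 + K)) ^ (q + 2) ∈
      Ideal.span {(s ^ 5 * t) ^ (q + 2), (t ^ 3) ^ (q + 2),
        s ^ 2 * t - s * t ^ 2 + z ^ (q + 1 + K + 1)} := by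
  obtain ⟨g, hg⟩ := sub_dvd_pow_sub_pow (z ^ (q + 1 + K + 1)) (-(s ^ 2 * t - s * t ^ 2)) (q + 1)
  obtain ⟨h, hh⟩ := sub_dvd_pow_sub_pow (s - t) (-t) (q + 1)
  rw [mem_span3]
  have h1 : (s - t) ^ (q + 1) = (-t) ^ (q + 1) + s * h := by
    linear_combination hh
  have h2 : (z ^ (q + 1 + K + 1)) ^ (q + 1) = (-(s ^ 2 * t - s * t ^ 2)) ^ (q + 1) +
      (s ^ 2 * t - s * t ^ 2 + z ^ (q + 1 + K + 1)) * g := by
    linear_combination hg
  have h3 : (-(s ^ 2 * t - s * t ^ 2)) ^ (q + 1) = (-1) ^ (q + 1) * s ^ (q + 1) * t ^ (q + 1) *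
      (s - t) ^ (q + 1) := by
    rw [← mul_pow, ← mul_pow, ← mul_pow]
    congr 1
    ring
  have h4 : (s ^ 4 * t ^ 2 * z ^ (q + 1 + K)) ^ (q + 2) =
      s ^ (4 * (q + 2)) * t ^ (2 * (q + 2)) * z ^ K * (z ^ (q + 1 + K + 1)) ^ (q + 1) := by
    ring
  rw [h4, h2, h3, h1]
  refine ⟨z ^ K * (-1) ^ (q + 1) * t ^ (2 * q + 3) * h, z ^ K * t ^ q * s ^ (5 * q + 9),
    s ^ (4 * (q + 2)) * t ^ (2 * (q + 2)) * z ^ K * g, ?_⟩
  rw [neg_pow t (q + 1)]
  have h5 : ((-1 : B) ^ (q + 1)) * (-1) ^ (q + 1) = 1 := by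
    rw [← mul_pow]; simp
  linear_combination (s ^ (4 * (q + 2)) * t ^ (2 * (q + 2)) * z ^ K * s ^ (q + 1) * t ^ (q + 1) *
    t ^ (q + 1)) * h5

variable (p : ℕ) [Fact p.Prime]

theorem monomial_ex (a b c : ℕ) :
    (monomial (ex a b c) (1 : ZMod p) : P p) = X 0 ^ a * X 1 ^ b * X 2 ^ c := by
  rw [X_pow_eq_monomial, X_pow_eq_monomial, X_pow_eq_monomial, monomial_mul, monomial_mul, one_mul,
    one_mul]
  have h : ex a b c = Finsupp.single 0 a + Finsupp.single 1 b + Finsupp.single 2 c := by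
    apply ex_ext <;> simp
  rw [h]

/-- the element `s ^ 2 * t - s * t ^ 2` -/
noncomputable def xx : P0 p := s2t p - st2 p
/-- the element `s ^ 5 * t` -/
noncomputable def s5t : P0 p := mo p (ex 5 1 0) (ok_ex 5 1 0 (by decide))
/-- the element `s ^ 4 * t ^ 2 * z ^ M` -/
noncomputable def uu (M : ℕ) : P0 p := mo p (ex 4 2 M) (ok_ex 4 2 M (by decide))
/-- the element `x + z ^ N` -/
noncomputable def yy (N : ℕ) : P0 p := xx p + zz p ^ N

theorem zz_pow (N : ℕ) : zz p ^ N = mo p (ex 0 0 N) (ok_ex 0 0 N (by decide)) :=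
  mo_pow' p N
where
  mo_pow' (p : ℕ) [Fact p.Prime] (N : ℕ) :
      zz p ^ N = mo p (ex 0 0 N) (ok_ex 0 0 N (by decide)) := by
    apply Subtype.ext
    show (monomial (ex 0 0 1) (1 : ZMod p)) ^ N = monomial (ex 0 0 N) 1
    rw [monomial_pow, one_pow]
    have h : N • ex 0 0 1 = ex 0 0 N := by
      apply ex_ext <;> simp
    rw [h]

theorem uu_pow_mem {M : ℕ} (hM : p ≤ M + 1) :
    uu p M ^ p ∈ Ideal.span {s5t p ^ p, t3 p ^ p, yy p (M + 1)} := by
  rw [← comap_map p (Ideal.span {s5t p ^ p, t3 p ^ p, yy p (M + 1)}), Ideal.mem_comap,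
    Ideal.map_span, Set.image_insert_eq, Set.image_insert_eq, Set.image_singleton]
  obtain ⟨q, hq⟩ : ∃ q, p = q + 2 := ⟨p - 2, by have := (Fact.out : p.Prime).two_le; omega⟩
  obtain ⟨K, hK⟩ : ∃ K, M = q + 1 + K := ⟨M - (q + 1), by omega⟩
  have h := ident (X 0 : P p) (X 1) (X 2) q K
  rw [← hK, ← hq] at h
  have e1 : (P0 p).subtype (uu p M ^ p) = (X 0 ^ 4 * X 1 ^ 2 * X 2 ^ M) ^ p := by
    show (monomial (ex 4 2 M) (1 : ZMod p)) ^ p = _
    rw [monomial_ex]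
  have e2 : (P0 p).subtype (s5t p ^ p) = (X 0 ^ 5 * X 1) ^ p := by
    show (monomial (ex 5 1 0) (1 : ZMod p)) ^ p = _
    rw [monomial_ex, pow_one, pow_zero, mul_one]
  have e3 : (P0 p).subtype (t3 p ^ p) = (X 1 ^ 3) ^ p := by
    show (monomial (ex 0 3 0) (1 : ZMod p)) ^ p = _
    rw [monomial_ex, pow_zero, pow_zero, mul_one, one_mul]
  have e4 : (P0 p).subtype (yy p (M + 1)) = X 0 ^ 2 * X 1 - X 0 * X 1 ^ 2 + X 2 ^ (M + 1) := by
    show (monomial (ex 2 1 0) (1 : ZMod p)) - monomial (ex 1 2 0) 1 +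
      (monomial (ex 0 0 1) (1 : ZMod p)) ^ (M + 1) = _
    rw [monomial_ex, monomial_ex, monomial_ex]
    ring
  rw [e1, e2, e3, e4]
  exact h

/-! ### The functional -/

theorem coeff_mo_mul_zero {d : Fin 3 →₀ ℕ} (hd : Ok d) (a : P0 p) {e : Fin 3 →₀ ℕ} (i : Fin 3)
    (h : e i < d i) : coeff e ((mo p d hd * a : P0 p) : P p) = 0 := by
  by_contra hne
  obtain ⟨e', he', -⟩ := supp_mo_mul p hd a e hne
  have := DFunLike.congr_fun he' i
  simp only [Finsupp.add_apply] at this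
  omega

theorem coeff_mo_mul_ex {a b c : ℕ} (a' b' c' : ℕ) {A B C : ℕ} (h : Ok (ex a b c)) (g : P0 p)
    (hA : A = a + a') (hB : B = b + b') (hC : C = c + c') :
    coeff (ex A B C) ((mo p (ex a b c) h * g : P0 p) : P p) =
      coeff (ex a' b' c') (g : P p) := by
  rw [hA, hB, hC, ← ex_add, coeff_mo_mul]

/-- the functional -/
noncomputable def lam (M : ℕ) (g : P0 p) : ZMod p :=
  coeff (ex 4 2 M) (g : P p) - coeff (ex 2 1 (2 * M + 1)) (g : P p) +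
    coeff (ex 3 0 (2 * M + 1)) (g : P p) + coeff (ex 0 0 (3 * M + 2)) (g : P p)

theorem lam_add (M : ℕ) (g h : P0 p) : lam p M (g + h) = lam p M g + lam p M h := by
  unfold lam
  have e : ((g + h : P0 p) : P p) = (g : P p) + h := rfl
  simp only [e, coeff_add]
  ring

theorem lam_sub (M : ℕ) (g h : P0 p) : lam p M (g - h) = lam p M g - lam p M h := by
  unfold lam
  have e : ((g - h : P0 p) : P p) = (g : P p) - h := rfl
  simp only [e, coeff_sub]
  ring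

theorem lam_s5t (M : ℕ) (g : P0 p) : lam p M (g * s5t p) = 0 := by
  rw [mul_comm]
  unfold lam s5t
  rw [coeff_mo_mul_zero p _ g 0 (by simp), coeff_mo_mul_zero p _ g 0 (by simp),
    coeff_mo_mul_zero p _ g 0 (by simp), coeff_mo_mul_zero p _ g 0 (by simp)]
  ring

theorem lam_t3 (M : ℕ) (g : P0 p) : lam p M (g * t3 p) = 0 := by
  rw [mul_comm]
  unfold lam t3
  rw [coeff_mo_mul_zero p _ g 1 (by simp), coeff_mo_mul_zero p _ g 1 (by simp),
    coeff_mo_mul_zero p _ g 1 (by simp), coeff_mo_mul_zero p _ g 1 (by simp)]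
  ring

theorem lam_s2t (M : ℕ) (g : P0 p) : lam p M (s2t p * g) =
    coeff (ex 2 1 M) (g : P p) - coeff (ex 0 0 (2 * M + 1)) (g : P p) := by
  unfold lam s2t
  rw [coeff_mo_mul_zero p _ g (e := ex 3 0 (2 * M + 1)) 1 (by simp),
    coeff_mo_mul_zero p _ g (e := ex 0 0 (3 * M + 2)) 0 (by simp)]
  rw [coeff_mo_mul_ex p 2 1 M (A := 4) (B := 2) (C := M) _ g rfl rfl (by ring),
    coeff_mo_mul_ex p 0 0 (2 * M + 1) (A := 2) (B := 1) (C := 2 * M + 1) _ g rfl rfl (by ring)]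
  ring

theorem lam_st2 (M : ℕ) (g : P0 p) : lam p M (st2 p * g) = coeff (ex 3 0 M) (g : P p) := by
  unfold lam st2
  rw [coeff_mo_mul_zero p _ g (e := ex 3 0 (2 * M + 1)) 1 (by simp),
    coeff_mo_mul_zero p _ g (e := ex 2 1 (2 * M + 1)) 1 (by simp),
    coeff_mo_mul_zero p _ g (e := ex 0 0 (3 * M + 2)) 0 (by simp)]
  rw [coeff_mo_mul_ex p 3 0 M (A := 4) (B := 2) (C := M) _ g rfl rfl (by ring)]
  ring

theorem lam_zz (M : ℕ) (g : P0 p) : lam p M (zz p ^ (M + 1) * g) =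
    - coeff (ex 2 1 M) (g : P p) + coeff (ex 3 0 M) (g : P p) +
      coeff (ex 0 0 (2 * M + 1)) (g : P p) := by
  rw [zz_pow]
  unfold lam
  rw [coeff_mo_mul_zero p _ g (e := ex 4 2 M) 2 (by simp)]
  rw [coeff_mo_mul_ex p 2 1 M (A := 2) (B := 1) (C := 2 * M + 1) _ g rfl rfl (by ring),
    coeff_mo_mul_ex p 3 0 M (A := 3) (B := 0) (C := 2 * M + 1) _ g rfl rfl (by ring),
    coeff_mo_mul_ex p 0 0 (2 * M + 1) (A := 0) (B := 0) (C := 3 * M + 2) _ g rfl rfl (by ring)]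
  ring

theorem lam_yy (M : ℕ) (g : P0 p) : lam p M (g * yy p (M + 1)) = 0 := by
  have h : g * yy p (M + 1) = s2t p * g - st2 p * g + zz p ^ (M + 1) * g := by
    unfold yy xx
    ring
  rw [h, lam_add, lam_sub, lam_s2t, lam_st2, lam_zz]
  ring

theorem lam_uu (M : ℕ) (g : P0 p) : lam p M (g * uu p M) = coeff 0 (g : P p) := by
  rw [mul_comm]
  unfold lam uu
  rw [coeff_mo_mul_zero p _ g (e := ex 2 1 (2 * M + 1)) 0 (by simp),
    coeff_mo_mul_zero p _ g (e := ex 3 0 (2 * M + 1)) 0 (by simp),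
    coeff_mo_mul_zero p _ g (e := ex 0 0 (3 * M + 2)) 0 (by simp)]
  have h1 : coeff (ex 4 2 M + 0) ((mo p (ex 4 2 M) (ok_ex 4 2 M (by decide)) * g : P0 p) : P p) =
    coeff 0 (g : P p) := coeff_mo_mul p _ g 0
  rw [add_zero] at h1
  rw [h1]
  ring

theorem not_mem (M : ℕ) :
    φ p (uu p M) ∉ (Ideal.span {s5t p, t3 p, yy p (M + 1)}).map (φ p) := by
  intro h
  obtain ⟨σ, hσ, hm⟩ := alg_mem p h
  rw [mem_span3] at hm
  obtain ⟨a, b, c, hm⟩ := hm
  have h1 := congrArg (lam p M) hm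
  rw [lam_uu, lam_add, lam_add, lam_s5t, lam_t3, lam_yy, add_zero, add_zero] at h1
  exact hσ (mem_m0 p |>.mpr h1)

theorem not_fpure {M : ℕ} (hM : p ≤ M + 1)
    [CharP (R p ⧸ Ideal.span {φ p (yy p (M + 1))}) p] :
    ¬ FPure p (R p ⧸ Ideal.span {φ p (yy p (M + 1))}) := by
  intro hF
  set A := R p ⧸ Ideal.span {φ p (yy p (M + 1))} with hA
  set π : R p →+* A := Ideal.Quotient.mk _ with hπ
  have hy : π (φ p (yy p (M + 1))) = 0 :=
    Ideal.Quotient.eq_zero_iff_mem.mpr (Ideal.subset_span rfl)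
  have h1 := hF.frobenius_closed {π (φ p (s5t p)), π (φ p (t3 p))} (π (φ p (uu p M))) (by
    rw [Set.image_insert_eq, Set.image_singleton, Ideal.mem_span_pair]
    obtain ⟨a, b, c, h⟩ := mem_span3.mp (uu_pow_mem p hM)
    refine ⟨π (φ p a), π (φ p b), ?_⟩
    have h2 := congrArg (fun g => π (φ p g)) h
    simp only [map_add, map_mul, map_pow, hy, mul_zero, add_zero] at h2
    exact h2.symm)
  rw [Ideal.mem_span_pair] at h1
  obtain ⟨a, b, h2⟩ := h1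
  obtain ⟨a, rfl⟩ := Ideal.Quotient.mk_surjective a
  obtain ⟨b, rfl⟩ := Ideal.Quotient.mk_surjective b
  rw [← map_mul, ← map_mul, ← map_add, eq_comm, Ideal.Quotient.eq,
    Ideal.mem_span_singleton'] at h2
  obtain ⟨c, hc⟩ := h2
  apply not_mem p M
  rw [Ideal.map_span, Set.image_insert_eq, Set.image_insert_eq, Set.image_singleton, mem_span3]
  exact ⟨a, b, c, by rw [hc]; ring⟩

end Pool.Agent.Work.MP_802276_ag
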