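import Mathlib
import Pool.Agent.Work.MP_802276_ag.Basic
import Pool.Agent.Work.MP_802276_ag.Mono
import Pool.Agent.Work.MP_802276_ag.Defs
import Pool.Agent.Work.MP_802276_ag.Loc
import Pool.Agent.Work.MP_802276_ag.Canon
import Pool.Agent.Work.MP_802276_ag.NotPure
import Pool.Agent.Work.MP_802276_ag.Gor

set_option autoImplicit false

namespace Pool.Agent.Work.MP_802276_ag

open MvPolynomial IsLocalRing

/-! ### Normal forms of monomials -/

/-- the normal form with given degree `k` in `s, t` and exponent `l` of `z` -/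
noncomputable def shape (a b k l : ℕ) : Fin 3 →₀ ℕ :=
  if b = 0 then ex k 0 l else if a = 0 then ex 0 k l else ex (k - 1) 1 l

theorem shape_congr {a b a' b' : ℕ} (k l : ℕ) (ha : a = 0 ↔ a' = 0) (hb : b = 0 ↔ b' = 0) :
    shape a b k l = shape a' b' k l := by
  unfold shape
  simp only [ha, hb]

theorem shape_sum {a b k l : ℕ} (hk : 0 < a → 0 < b → 0 < k) :
    (shape a b k l) 0 + (shape a b k l) 1 = k := by
  unfold shape
  split_ifs with h1 h2
  · simp
  · simp
  · simp only [ex_zero', ex_one]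
    have := hk (by omega) (by omega)
    omega

theorem shape_zero {a b k l : ℕ} (hk : 0 < a + b ↔ 2 ≤ k) (hk' : k ≠ 1) :
    ((shape a b k l) 0 = 0 ↔ a = 0) := by
  unfold shape
  split_ifs with h1 h2
  · simp only [ex_zero']; omega
  · simp [h2]
  · simp only [ex_zero']; omega

theorem shape_one {a b k l : ℕ} (hk : 0 < a + b ↔ 2 ≤ k) (hk' : k ≠ 1) :
    ((shape a b k l) 1 = 0 ↔ b = 0) := by
  unfold shape
  split_ifs with h1 h2
  · simp [h1]
  · simp only [ex_one]; omega
  · simp only [ex_one]; omega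

theorem shape_two {a b k l : ℕ} : (shape a b k l) 2 = l := by
  unfold shape
  split_ifs <;> simp

variable (p : ℕ) [Fact p.Prime]

theorem mo_ex_step (a b c : ℕ) (h : 3 ∣ a + b) :
    mo p (ex (a + 2) (b + 1) c) (ok_ex _ _ _ (by omega)) -
      mo p (ex (a + 1) (b + 2) c) (ok_ex _ _ _ (by omega)) ∈ Ideal.span {xx p} := by
  rw [Ideal.mem_span_singleton']
  refine ⟨mo p (ex a b c) (ok_ex _ _ _ h), ?_⟩
  unfold xx s2t st2
  rw [mul_sub, mo_mul, mo_mul, mo_congr p _ (ex_add a b c 2 1 0),
    mo_congr p _ (ex_add a b c 1 2 0)]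
  rfl

theorem mo_normal (c : ℕ) : ∀ (n a : ℕ) (h : 3 ∣ (a + 1) + (n + 1)),
    mo p (ex (a + 1) (n + 1) c) (ok_ex _ _ _ h) -
      mo p (ex (a + 1 + n) 1 c) (ok_ex _ _ _ (by omega)) ∈ Ideal.span {xx p} := by
  intro n
  induction n with
  | zero =>
    intro a h
    simp
  | succ n ih =>
    intro a h
    have h1 := mo_ex_step p a n c (by omega)
    have h2 := ih (a + 1) (by omega)
    have h3 : mo p (ex (a + 1) (n + 1 + 1) c) (ok_ex _ _ _ h) -
      mo p (ex (a + 1 + (n + 1)) 1 c) (ok_ex _ _ _ (by omega)) =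
        (mo p (ex (a + 1 + 1) (n + 1) c) (ok_ex _ _ _ (by omega)) -
          mo p (ex (a + 1 + 1 + n) 1 c) (ok_ex _ _ _ (by omega))) -
        (mo p (ex (a + 2) (n + 1) c) (ok_ex _ _ _ (by omega)) -
          mo p (ex (a + 1) (n + 2) c) (ok_ex _ _ _ (by omega))) := by
      rw [mo_congr p (e := ex (a + 1 + 1 + n) 1 c) (ok_ex (a + 1 + (n + 1)) 1 c (by omega))
        (by congr 1; ring)]
      ring
    rw [h3]
    exact Ideal.sub_mem _ h2 h1

/-- the normal form -/
noncomputable def nf (a : Fin 3 →₀ ℕ) : Fin 3 →₀ ℕ := shape (a 0) (a 1) (a 0 + a 1) (a 2)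

theorem nf_ok {a : Fin 3 →₀ ℕ} (h : Ok a) : Ok (nf a) := by
  show 3 ∣ (nf a) 0 + (nf a) 1
  unfold nf
  rw [shape_sum (by omega)]
  exact h

theorem mo_nf {a : Fin 3 →₀ ℕ} (h : Ok a) : mo p a h - mo p (nf a) (nf_ok h) ∈
    Ideal.span {xx p} := by
  by_cases h1 : a 1 = 0
  · have h2 : nf a = a := by
      unfold nf shape
      rw [if_pos h1]
      exact ex_ext (by simp [h1]) (by simp [h1]) (by simp)
    rw [mo_congr p (nf_ok h) h2, sub_self]
    exact Ideal.zero_mem _
  by_cases h0 : a 0 = 0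
  · have h2 : nf a = a := by
      unfold nf shape
      rw [if_neg h1, if_pos h0]
      exact ex_ext (by simp [h0]) (by simp [h0]) (by simp)
    rw [mo_congr p (nf_ok h) h2, sub_self]
    exact Ideal.zero_mem _
  obtain ⟨b0, hb0⟩ := Nat.exists_eq_succ_of_ne_zero h0
  obtain ⟨b1, hb1⟩ := Nat.exists_eq_succ_of_ne_zero h1
  have h2 : nf a = ex (b0 + 1 + b1) 1 (a 2) := by
    unfold nf shape
    rw [if_neg h1, if_neg h0, hb0, hb1]
    congr 1
  have h3 : a = ex (b0 + 1) (b1 + 1) (a 2) := ex_ext hb0 hb1 rfl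
  have h4 : 3 ∣ (b0 + 1) + (b1 + 1) := by
    have : 3 ∣ a 0 + a 1 := h
    rwa [hb0, hb1] at this
  rw [mo_congr p (nf_ok h) h2, mo_congr p h h3]
  exact mo_normal p (a 2) b1 b0 h4

/-! ### The splitting on monomials -/

/-- the condition for a monomial to be mapped to a non-zero element -/
def Good (d : Fin 3 →₀ ℕ) : Prop := p ∣ d 2 ∧ 3 * p ∣ d 0 + d 1

instance : DecidablePred (Good p) := fun d =>
  inferInstanceAs (Decidable (p ∣ d 2 ∧ 3 * p ∣ d 0 + d 1))

/-- the exponent of the image of a monomial -/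
noncomputable def nu (d : Fin 3 →₀ ℕ) : Fin 3 →₀ ℕ :=
  shape (d 0) (d 1) ((d 0 + d 1) / p) (d 2 / p)

theorem pos_p : 0 < p := (Fact.out : p.Prime).pos

omit [Fact p.Prime] in
theorem good_iff {d : Fin 3 →₀ ℕ} : Good p d ↔ ∃ j l, d 0 + d 1 = p * (3 * j) ∧ d 2 = p * l := by
  unfold Good
  constructor
  · rintro ⟨⟨l, hl⟩, ⟨j, hj⟩⟩
    exact ⟨j, l, by rw [hj]; ring, hl⟩
  · rintro ⟨j, l, hj, hl⟩
    exact ⟨⟨l, hl⟩, ⟨j, by rw [hj]; ring⟩⟩

theorem nu_ok {d : Fin 3 →₀ ℕ} (h : Good p d) : Ok (nu p d) := by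
  obtain ⟨j, l, hj, hl⟩ := (good_iff p).mp h
  show 3 ∣ (nu p d) 0 + (nu p d) 1
  unfold nu
  rw [shape_sum, hj, Nat.mul_div_cancel_left _ (pos_p p)]
  · exact ⟨j, rfl⟩
  · intro h0 h1
    rw [hj, Nat.mul_div_cancel_left _ (pos_p p)]
    by_contra hcon
    have : j = 0 := by omega
    rw [this] at hj
    simp at hj
    omega

theorem nf_nu {d e : Fin 3 →₀ ℕ} (hd : Good p d) : nf (e + nu p d) = nu p (p • e + d) := by
  obtain ⟨j, l, hj, hl⟩ := (good_iff p).mp hd
  have hp := pos_p p
  have hk : 0 < d 0 + d 1 ↔ 2 ≤ 3 * j := by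
    rw [hj]
    constructor
    · intro h
      have : 0 < 3 * j := by
        by_contra hc
        have : 3 * j = 0 := by omega
        rw [this, mul_zero] at h
        exact lt_irrefl _ h
      omega
    · intro h
      exact Nat.mul_pos hp (by omega)
  have h1 : nu p d = shape (d 0) (d 1) (3 * j) l := by
    unfold nu
    rw [hj, hl, Nat.mul_div_cancel_left _ hp, Nat.mul_div_cancel_left _ hp]
  have h2 : (p • e + d) 0 + (p • e + d) 1 = p * (e 0 + e 1 + 3 * j) := by
    simp only [Finsupp.add_apply, Finsupp.smul_apply, smul_eq_mul]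
    rw [mul_add, ← hj]
    ring
  have h3 : (p • e + d) 2 = p * (e 2 + l) := by
    simp only [Finsupp.add_apply, Finsupp.smul_apply, smul_eq_mul]
    rw [hl]
    ring
  have h4 : nu p (p • e + d) = shape ((p • e + d) 0) ((p • e + d) 1) (e 0 + e 1 + 3 * j) (e 2 + l) := by
    unfold nu
    rw [h2, h3, Nat.mul_div_cancel_left _ hp, Nat.mul_div_cancel_left _ hp]
  have h5 : (e + nu p d) 0 + (e + nu p d) 1 = e 0 + e 1 + 3 * j := by
    have := shape_sum (a := d 0) (b := d 1) (k := 3 * j) (l := l) (by omega)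
    rw [h1]
    simp only [Finsupp.add_apply]
    omega
  have h6 : (e + nu p d) 2 = e 2 + l := by
    rw [h1]
    simp only [Finsupp.add_apply, shape_two]
  rw [nf, h4, h5, h6]
  apply shape_congr
  · have h7 := shape_zero (a := d 0) (b := d 1) (k := 3 * j) (l := l) hk (by omega)
    rw [h1]
    simp only [Finsupp.add_apply, Finsupp.smul_apply, smul_eq_mul, Nat.add_eq_zero_iff, h7,
      mul_eq_zero, hp.ne', false_or]
  · have h7 := shape_one (a := d 0) (b := d 1) (k := 3 * j) (l := l) hk (by omega)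
    rw [h1]
    simp only [Finsupp.add_apply, Finsupp.smul_apply, smul_eq_mul, Nat.add_eq_zero_iff, h7,
      mul_eq_zero, hp.ne', false_or]

omit [Fact p.Prime] in
theorem good_add {d e : Fin 3 →₀ ℕ} (he : Ok e) : Good p (p • e + d) ↔ Good p d := by
  unfold Good
  simp only [Finsupp.add_apply, Finsupp.smul_apply, smul_eq_mul]
  obtain ⟨k, hk⟩ := he
  rw [show p * e 0 + d 0 + (p * e 1 + d 1) = 3 * p * k + (d 0 + d 1) by
    calc p * e 0 + d 0 + (p * e 1 + d 1) = p * (e 0 + e 1) + (d 0 + d 1) := by ring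
      _ = _ := by rw [hk]; ring]
  rw [Nat.dvd_add_right (Dvd.intro _ rfl), Nat.dvd_add_right (Dvd.intro _ rfl)]

/-- the image of a monomial -/
noncomputable def tau (d : Fin 3 →₀ ℕ) : P0 p := if h : Good p d then mo p (nu p d) (nu_ok p h) else 0

theorem tau_add {d e : Fin 3 →₀ ℕ} (he : Ok e) :
    tau p (p • e + d) - mo p e he * tau p d ∈ Ideal.span {xx p} := by
  unfold tau
  by_cases h : Good p d
  · have h' : Good p (p • e + d) := (good_add p he).mpr h
    rw [dif_pos h, dif_pos h', mo_mul]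
    have h1 := mo_nf p (he.add (nu_ok p h))
    rw [mo_congr p _ (nf_nu p h)] at h1
    rw [← neg_mem_iff, neg_sub]
    exact h1
  · have h' : ¬ Good p (p • e + d) := fun hg => h ((good_add p he).mp hg)
    rw [dif_neg h, dif_neg h', mul_zero, sub_zero]
    exact Ideal.zero_mem _

theorem tau_zero : tau p 0 = 1 := by
  have h : Good p 0 := by
    unfold Good
    simp
  unfold tau
  rw [dif_pos h]
  apply Subtype.ext
  show monomial (nu p 0) (1 : ZMod p) = 1
  have h1 : nu p 0 = 0 := by
    unfold nu shape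
    rw [if_pos (by simp)]
    exact ex_ext (by simp) (by simp) (by simp)
  rw [h1]
  rfl

theorem tau_xx {d : Fin 3 →₀ ℕ} : tau p (ex 2 1 0 + d) = tau p (ex 1 2 0 + d) := by
  have h1 : Good p (ex 2 1 0 + d) ↔ Good p (ex 1 2 0 + d) := by
    unfold Good
    simp only [Finsupp.add_apply, ex_zero', ex_one, ex_two]
    rw [show 2 + d 0 + (1 + d 1) = 1 + d 0 + (2 + d 1) by ring]
  have h2 : nu p (ex 2 1 0 + d) = nu p (ex 1 2 0 + d) := by
    unfold nu
    simp only [Finsupp.add_apply, ex_zero', ex_one, ex_two]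
    rw [show 2 + d 0 + (1 + d 1) = 1 + d 0 + (2 + d 1) by ring]
    apply shape_congr <;> omega
  unfold tau
  by_cases h : Good p (ex 2 1 0 + d)
  · rw [dif_pos h, dif_pos (h1.mp h)]
    exact mo_congr p _ h2
  · rw [dif_neg h, dif_neg (fun h' => h (h1.mpr h'))]

/-! ### The additive map -/

/-- the linear map on polynomials -/
noncomputable def sig : P p →ₗ[ZMod p] P p :=
  (basisMonomials (Fin 3) (ZMod p)).constr (ZMod p) (fun d => (tau p d : P p))

theorem sig_mo (d : Fin 3 →₀ ℕ) : sig p (monomial d 1) = (tau p d : P p) := by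
  have h := (basisMonomials (Fin 3) (ZMod p)).constr_basis (ZMod p)
    (fun d => (tau p d : P p)) d
  rw [coe_basisMonomials] at h
  exact h

theorem sig_monomial (d : Fin 3 →₀ ℕ) (c : ZMod p) :
    sig p (monomial d c) = C c * (tau p d : P p) := by
  rw [← sig_mo, C_mul', ← map_smul, smul_monomial, smul_eq_mul, mul_one]

theorem sig_mem (g : P p) : sig p g ∈ P0 p := by
  induction g using MvPolynomial.induction_on' with
  | monomial d c =>
    rw [sig_monomial]
    exact (P0 p).mul_mem (co p c).2 (tau p d).2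
  | add f g hf hg =>
    rw [map_add]
    exact (P0 p).add_mem hf hg

theorem sig_xx (g : P p) : sig p ((xx p : P p) * g) = 0 := by
  have hx : (xx p : P p) = monomial (ex 2 1 0) 1 - monomial (ex 1 2 0) 1 := rfl
  induction g using MvPolynomial.induction_on' with
  | monomial d c =>
    rw [hx, sub_mul, monomial_mul, monomial_mul, one_mul, map_sub, sig_monomial, sig_monomial,
      tau_xx, sub_self]
  | add f g hf hg =>
    rw [mul_add, map_add, hf, hg, add_zero]

/-- the additive map on `P0` -/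
noncomputable def S0 : P0 p →+ P0 p where
  toFun g := ⟨sig p (g : P p), sig_mem p _⟩
  map_zero' := by
    apply Subtype.ext
    show sig p 0 = 0
    exact map_zero _
  map_add' := by
    intro g h
    apply Subtype.ext
    show sig p ((g : P p) + h) = sig p g + sig p h
    exact map_add _ _ _

theorem S0_xx (g : P0 p) : S0 p (xx p * g) = 0 := Subtype.ext (sig_xx p g)

theorem S0_one : S0 p 1 = 1 := by
  apply Subtype.ext
  show sig p 1 = 1
  have h := sig_mo p 0
  rw [tau_zero] at h
  exact h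

theorem S0_mo (c : ZMod p) (d : Fin 3 →₀ ℕ) (hd : Ok d) :
    S0 p (co p c * mo p d hd) = co p c * tau p d := by
  apply Subtype.ext
  show sig p (C c * monomial d 1) = C c * (tau p d : P p)
  rw [C_mul_monomial, mul_one, sig_monomial]

theorem P0_induction {q : P0 p → Prop} (h0 : q 0) (hadd : ∀ a b, q a → q b → q (a + b))
    (hmo : ∀ c d (hd : Ok d), q (co p c * mo p d hd)) (g : P0 p) : q g := by
  classical
  have h1 : g = ∑ d ∈ (g : P p).support.attach, co p (coeff d.1 (g : P p)) *
      mo p d.1 (g.2 d.1 (mem_support_iff.mp d.2)) := by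
    apply Subtype.ext
    have h2 : (g : P p) = ∑ d ∈ (g : P p).support.attach, monomial d.1 (coeff d.1 (g : P p)) := by
      conv_lhs => rw [as_sum (g : P p)]
      rw [← Finset.sum_attach]
    rw [AddSubmonoidClass.coe_finsetSum]
    conv_lhs => rw [h2]
    refine Finset.sum_congr rfl fun d _ => ?_
    show _ = C (coeff d.1 (g : P p)) * monomial d.1 1
    rw [C_mul_monomial, mul_one]
  rw [h1]
  exact Finset.sum_induction _ q (fun a b => hadd a b) h0 (fun d _ => hmo _ _ _)

theorem co_mul (c c' : ZMod p) : co p c * co p c' = co p (c * c') := by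
  apply Subtype.ext
  show C c * C c' = (C (c * c') : P p)
  rw [C_mul]

theorem co_pow (c : ZMod p) : co p c ^ p = co p c := by
  apply Subtype.ext
  show (C c : P p) ^ p = C c
  rw [← C_pow, ZMod.pow_card]

theorem S0_semi (r g : P0 p) : S0 p (r ^ p * g) - r * S0 p g ∈ Ideal.span {xx p} := by
  induction g using P0_induction with
  | h0 => simp
  | hadd a b ha hb =>
    have : S0 p (r ^ p * (a + b)) - r * S0 p (a + b) =
        (S0 p (r ^ p * a) - r * S0 p a) + (S0 p (r ^ p * b) - r * S0 p b) := by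
      rw [mul_add, map_add, map_add]; ring
    rw [this]
    exact Ideal.add_mem _ ha hb
  | hmo c d hd =>
    induction r using P0_induction with
    | h0 =>
      rw [zero_pow (pos_p p).ne', zero_mul, map_zero, zero_mul, sub_zero]
      exact Ideal.zero_mem _
    | hadd a b ha hb =>
      have : S0 p ((a + b) ^ p * (co p c * mo p d hd)) - (a + b) * S0 p (co p c * mo p d hd) =
          (S0 p (a ^ p * (co p c * mo p d hd)) - a * S0 p (co p c * mo p d hd)) +
            (S0 p (b ^ p * (co p c * mo p d hd)) - b * S0 p (co p c * mo p d hd)) := by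
        rw [add_pow_char, add_mul, map_add]; ring
      rw [this]
      exact Ideal.add_mem _ ha hb
    | hmo c' e he =>
      have h1 : Ok (p • e) := by
        show 3 ∣ (p • e) 0 + (p • e) 1
        simp only [Finsupp.smul_apply, smul_eq_mul]
        rw [← mul_add]
        exact Dvd.dvd.mul_left he _
      have h2 : (co p c' * mo p e he) ^ p * (co p c * mo p d hd) =
          co p (c' * c) * mo p (p • e + d) (h1.add hd) := by
        rw [mul_pow, co_pow, mo_pow p he p (p • e) h1 rfl, ← co_mul, ← mo_mul p h1 hd]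
        ring
      rw [h2, S0_mo, S0_mo]
      have h3 : co p (c' * c) * tau p (p • e + d) - co p c' * mo p e he * (co p c * tau p d) =
          co p (c' * c) * (tau p (p • e + d) - mo p e he * tau p d) := by
        rw [← co_mul]; ring
      rw [h3]
      exact Ideal.mul_mem_left _ _ (tau_add p he)

end Pool.Agent.Work.MP_802276_ag
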