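import Mathlib
import Pool.Agent.Work.MP_802276_ag.Basic
import Pool.Agent.Work.MP_802276_ag.Mono
import Pool.Agent.Work.MP_802276_ag.Defs
import Pool.Agent.Work.MP_802276_ag.Loc
import Pool.Agent.Work.MP_802276_ag.Canon
import Pool.Agent.Work.MP_802276_ag.NotPure
import Pool.Agent.Work.MP_802276_ag.Split

set_option autoImplicit false

namespace Pool.Agent.Work.MP_802276_ag

open MvPolynomial IsLocalRing

variable (p : ℕ) [Fact p.Prime]

/-- the quotient of the local ring by `x` -/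
abbrev Q := R p ⧸ Ideal.span {φ p (xx p)}

/-- the quotient map -/
noncomputable abbrev π : R p →+* Q p := Ideal.Quotient.mk _

theorem pi_unit {σ : P0 p} (h : σ ∉ m0 p) : IsUnit (π p (φ p σ)) := (unit_of p h).map _

/-- the map from `P0` to the quotient -/
noncomputable def th : P0 p →+ Q p := ((π p).comp (φ p)).toAddMonoidHom.comp (S0 p)

theorem th_apply (g : P0 p) : th p g = π p (φ p (S0 p g)) := rfl

theorem pi_phi_zero {g : P0 p} (h : g ∈ Ideal.span {xx p}) : π p (φ p g) = 0 := by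
  rw [Ideal.Quotient.eq_zero_iff_mem]
  rw [Ideal.mem_span_singleton'] at h ⊢
  obtain ⟨a, rfl⟩ := h
  exact ⟨φ p a, (map_mul _ _ _).symm⟩

theorem th_semi (r g : P0 p) : th p (r ^ p * g) = π p (φ p r) * th p g := by
  rw [th_apply, th_apply, ← map_mul, ← map_mul, ← sub_eq_zero, ← map_sub, ← map_sub]
  exact pi_phi_zero p (S0_semi p r g)

theorem th_xx (g : P0 p) : th p (xx p * g) = 0 := by
  rw [th_apply, S0_xx, map_zero, map_zero]

theorem th_one : th p 1 = 1 := by
  rw [th_apply, S0_one, map_one, map_one]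

theorem exists_rep (l : R p) : ∃ σ, σ ∉ m0 p ∧ ∃ b, φ p σ ^ p * l = φ p b := by
  obtain ⟨σ, hσ, b, hb⟩ := surj p l
  refine ⟨σ, hσ, σ ^ (p - 1) * b, ?_⟩
  rw [map_mul, map_pow, ← hb, ← mul_assoc, ← pow_succ, Nat.sub_add_cancel (pos_p p)]

theorem exists_val (l : R p) : ∃ a : Q p, ∀ σ, σ ∉ m0 p → ∀ b, φ p σ ^ p * l = φ p b →
    π p (φ p σ) * a = th p b := by
  obtain ⟨σ, hσ, b, hb⟩ := exists_rep p l
  obtain ⟨u, hu⟩ := pi_unit p hσ
  refine ⟨↑u⁻¹ * th p b, ?_⟩
  intro σ' hσ' b' hb'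
  have h1 : σ' ^ p * b = σ ^ p * b' := by
    apply alg_inj p
    rw [map_mul, map_mul, ← hb, ← hb', map_pow, map_pow]
    ring
  have h2 := congrArg (th p) h1
  rw [th_semi, th_semi, ← hu] at h2
  rw [mul_left_comm, h2, Units.inv_mul_cancel_left]

/-- the map on the local ring -/
noncomputable def Th (l : R p) : Q p := (exists_val p l).choose

theorem Th_spec (l : R p) {σ : P0 p} (hσ : σ ∉ m0 p) {b : P0 p} (h : φ p σ ^ p * l = φ p b) :
    π p (φ p σ) * Th p l = th p b := (exists_val p l).choose_spec σ hσ b h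

theorem Th_add (l l' : R p) : Th p (l + l') = Th p l + Th p l' := by
  obtain ⟨σ, hσ, b, hb⟩ := exists_rep p l
  obtain ⟨σ', hσ', b', hb'⟩ := exists_rep p l'
  have hm := mul_notMem p hσ hσ'
  apply (pi_unit p hm).mul_left_cancel
  rw [mul_add]
  have h1 : φ p (σ * σ') ^ p * l = φ p (σ' ^ p * b) := by
    rw [map_mul, map_mul, map_pow, ← hb]; ring
  have h2 : φ p (σ * σ') ^ p * l' = φ p (σ ^ p * b') := by
    rw [map_mul, map_mul, map_pow, ← hb']; ring
  have h3 : φ p (σ * σ') ^ p * (l + l') = φ p (σ' ^ p * b + σ ^ p * b') := by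
    rw [mul_add, h1, h2, map_add]
  rw [Th_spec p _ hm h1, Th_spec p _ hm h2, Th_spec p _ hm h3, map_add]

theorem Th_semi (r l : R p) : Th p (r ^ p * l) = π p r * Th p l := by
  obtain ⟨σ, hσ, b, hb⟩ := exists_rep p l
  obtain ⟨τ, hτ, c, hc⟩ := surj p r
  have hm := mul_notMem p hσ hτ
  apply (pi_unit p hm).mul_left_cancel
  have h1 : φ p (σ * τ) ^ p * (r ^ p * l) = φ p (c ^ p * b) := by
    rw [map_mul, map_mul, map_pow, ← hb, ← hc]; ring
  rw [Th_spec p _ hm h1, th_semi, ← hc, ← Th_spec p l hσ hb, map_mul, map_mul, map_mul]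
  ring

theorem Th_xx (l : R p) : Th p (φ p (xx p) * l) = 0 := by
  obtain ⟨σ, hσ, b, hb⟩ := exists_rep p l
  apply (pi_unit p hσ).mul_left_cancel
  have h1 : φ p σ ^ p * (φ p (xx p) * l) = φ p (xx p * b) := by
    rw [map_mul, ← hb]; ring
  rw [Th_spec p _ hσ h1, th_xx, mul_zero]

theorem Th_one : Th p 1 = 1 := by
  have h1 : (1 : P0 p) ∉ m0 p := fun h => (inferInstance : (m0 p).IsPrime).ne_top
    ((Ideal.eq_top_iff_one _).mpr h)
  have h2 : φ p 1 ^ p * (1 : R p) = φ p 1 := by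
    rw [map_one, one_pow, one_mul]
  have h3 := Th_spec p 1 h1 h2
  rwa [map_one, map_one, one_mul, th_one] at h3

/-- the splitting -/
noncomputable def Sp (a : Q p) : Q p :=
  Th p (Function.surjInv (Ideal.Quotient.mk_surjective (I := Ideal.span {φ p (xx p)})) a)

theorem Th_zero : Th p 0 = 0 := by
  have := Th_xx p 0
  rwa [mul_zero] at this

theorem Sp_pi (l : R p) : Sp p (π p l) = Th p l := by
  unfold Sp
  set l' := Function.surjInv (Ideal.Quotient.mk_surjective (I := Ideal.span {φ p (xx p)})) (π p l)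
    with hl'
  have h : π p l' = π p l :=
    Function.surjInv_eq (Ideal.Quotient.mk_surjective (I := Ideal.span {φ p (xx p)})) (π p l)
  rw [Ideal.Quotient.eq, Ideal.mem_span_singleton'] at h
  obtain ⟨c, hc⟩ := h
  have h1 : l' = φ p (xx p) * c + l := by rw [mul_comm, hc]; ring
  rw [h1, Th_add, Th_xx, zero_add]

theorem fpure [CharP (Q p) p] : FPure p (Q p) := by
  apply FPure.of_split
    { toFun := Sp p
      map_zero' := by
        rw [← map_zero (π p), Sp_pi, Th_zero, map_zero]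
      map_add' := by
        intro a b
        obtain ⟨a, rfl⟩ := Ideal.Quotient.mk_surjective a
        obtain ⟨b, rfl⟩ := Ideal.Quotient.mk_surjective b
        rw [← map_add, Sp_pi, Sp_pi, Sp_pi, Th_add] }
  · intro r a
    obtain ⟨a, rfl⟩ := Ideal.Quotient.mk_surjective a
    obtain ⟨r, rfl⟩ := Ideal.Quotient.mk_surjective r
    show Sp p (π p r ^ p * π p a) = π p r * Sp p (π p a)
    rw [← map_pow, ← map_mul, Sp_pi, Sp_pi, Th_semi]
  · show Sp p 1 = 1
    rw [← map_one (π p), Sp_pi, Th_one, map_one]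

end Pool.Agent.Work.MP_802276_ag
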